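import Pool.Agent.Helper1.DS.Var

/-!
# Counting induced matchings of the incidence graph of a projective plane
-/

set_option autoImplicit false

namespace Pool.Agent.Helper1.DS

open Finset

/-! ### Binomial sums -/

/-- The number of subsets with at most `s` elements of a set with `m` elements. -/
def bs (m s : ℕ) : ℕ := ∑ j ∈ range (s + 1), m.choose j

theorem bs_mono {m m' : ℕ} (h : m ≤ m') (s : ℕ) : bs m s ≤ bs m' s :=
  Finset.sum_le_sum fun j _ => Nat.choose_le_choose j h

theorem choose_le_bs (m s : ℕ) : m.choose s ≤ bs m s :=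
  Finset.single_le_sum (f := fun j => m.choose j) (fun _ _ => Nat.zero_le _)
    (Finset.mem_range.2 (Nat.lt_succ_self s))

theorem bs_le (m s : ℕ) {x : ℝ} (hx : 0 < x) (hx1 : x ≤ 1) :
    (bs m s : ℝ) * x ^ s ≤ (1 + x) ^ m := by
  have h1 : (1 + x) ^ m = ∑ j ∈ range (m + 1), (m.choose j : ℝ) * x ^ j := by
    rw [add_comm, add_pow]
    refine Finset.sum_congr rfl fun j _ => ?_
    rw [one_pow, mul_one, mul_comm]
  have h2 : ∑ j ∈ range (m + 1), (m.choose j : ℝ) * x ^ j =
      ∑ j ∈ range (max m s + 1), (m.choose j : ℝ) * x ^ j := by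
    refine Finset.sum_subset (Finset.range_mono (by have := le_max_left m s; omega))
      fun j _ hj => ?_
    have : m < j := by
      rw [Finset.mem_range] at hj
      omega
    rw [Nat.choose_eq_zero_of_lt this, Nat.cast_zero, zero_mul]
  rw [h1, h2]
  unfold bs
  rw [Nat.cast_sum, Finset.sum_mul]
  refine le_trans (Finset.sum_le_sum fun j hj => ?_)
    (Finset.sum_le_sum_of_subset_of_nonneg
      (Finset.range_mono (by have := le_max_right m s; omega)) fun j _ _ => by positivity)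
  have hj' : j ≤ s := by
    rw [Finset.mem_range] at hj
    omega
  exact mul_le_mul_of_nonneg_left (pow_le_pow_of_le_one hx.le hx1 hj') (Nat.cast_nonneg _)

theorem card_small {α : Type*} [DecidableEq α] (A : Finset α) (s : ℕ) :
    (A.powerset.filter fun T => T.card ≤ s).card = bs A.card s := by
  rw [Finset.card_eq_sum_card_fiberwise (f := fun T : Finset α => T.card) (t := range (s + 1))]
  · refine Finset.sum_congr rfl fun j hj => ?_
    rw [← Finset.card_powersetCard]
    congr 1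
    ext T
    simp only [Finset.mem_filter, Finset.mem_powerset, Finset.mem_powersetCard]
    rw [Finset.mem_range] at hj
    constructor
    · rintro ⟨⟨h1, h2⟩, h3⟩
      exact ⟨h1, h3⟩
    · rintro ⟨h1, h2⟩
      exact ⟨⟨h1, by omega⟩, h2⟩
  · intro T hT
    have hT' := (Finset.mem_filter.1 (Finset.mem_coe.1 hT)).2
    simp only [Finset.coe_range, Set.mem_Iio]
    omega

open scoped Classical in
/-- Matching pairs: a set of points and a set of lines of the same size, each line meeting the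
point set in at most one point and each point being on at most one of the lines. -/
def IsMat {α β : Type*} (r : α → β → Prop) (T : Finset α) (M : Finset β) : Prop :=
  T.card = M.card ∧ (∀ b ∈ M, (T.filter fun a => r a b).card ≤ 1) ∧
    ∀ a ∈ T, (M.filter fun b => r a b).card ≤ 1

open scoped Classical in
/-- The matching pairs inside `A`, `B`. -/
noncomputable def prs {α β : Type*} (r : α → β → Prop) (A : Finset α) (B : Finset β) :
    Finset (Finset α × Finset β) :=
  (A.powerset ×ˢ B.powerset).filter fun x => IsMat r x.1 x.2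

open scoped Classical in
theorem prs_step {α β : Type*} [Fintype α] [Fintype β] {r : α → β → Prop} {q : ℕ}
    (h1 : IsPl r q) (h2 : IsPl (fun b a => r a b) q) {m m' s N : ℕ} (hs : 2 * (q + 1) ≤ s)
    (hm : 4 * (q * (q + 1) ^ 2) ≤ m' * s)
    (hN : ∀ (A : Finset α) (B : Finset β), A.card ≤ m' → B.card ≤ m' → (prs r A B).card ≤ N)
    (A : Finset α) (B : Finset β) (hA : A.card ≤ m) (hB : B.card ≤ m) :
    (prs r A B).card ≤ bs m s ^ 2 * (1 + N) := by
  have hs0 : 0 < s := by omega
  let S₁ : Finset (Finset α × Finset β) :=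
    (A.powerset.filter fun T => T.card ≤ s) ×ˢ (B.powerset.filter fun T => T.card ≤ s)
  let C₁ : Finset α → Finset β := fun T => B.filter fun b => (T.filter fun a => r a b).card ≤ 1
  let C₂ : Finset β → Finset α := fun M => A.filter fun a => (M.filter fun b => r a b).card ≤ 1
  let S₂ : Finset (Finset α × Finset β) :=
    (A.powersetCard s ×ˢ B.powersetCard s).biUnion fun y => prs r (C₂ y.2) (C₁ y.1)
  have hsub : prs r A B ⊆ S₁ ∪ S₂ := by
    intro x hx
    unfold prs at hx
    rw [Finset.mem_filter, Finset.mem_product, Finset.mem_powerset, Finset.mem_powerset] at hx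
    obtain ⟨⟨hxA, hxB⟩, hc, hx1, hx2⟩ := hx
    rw [Finset.mem_union]
    by_cases hle : x.1.card ≤ s
    · left
      simp only [S₁, Finset.mem_product, Finset.mem_filter, Finset.mem_powerset]
      exact ⟨⟨hxA, hle⟩, hxB, hc ▸ hle⟩
    · right
      push Not at hle
      obtain ⟨T, hT, hTc⟩ := Finset.exists_subset_card_eq hle.le
      obtain ⟨M, hM, hMc⟩ := Finset.exists_subset_card_eq (hc ▸ hle.le : s ≤ x.2.card)
      simp only [S₂, Finset.mem_biUnion, Finset.mem_product, Finset.mem_powersetCard]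
      refine ⟨(T, M), ⟨⟨hT.trans hxA, hTc⟩, hM.trans hxB, hMc⟩, ?_⟩
      unfold prs
      rw [Finset.mem_filter, Finset.mem_product, Finset.mem_powerset, Finset.mem_powerset]
      refine ⟨⟨fun a ha => ?_, fun b hb => ?_⟩, hc, hx1, hx2⟩
      · simp only [C₂, Finset.mem_filter]
        refine ⟨hxA ha, le_trans (Finset.card_le_card ?_) (hx2 a ha)⟩
        exact Finset.filter_subset_filter _ hM
      · simp only [C₁, Finset.mem_filter]
        refine ⟨hxB hb, le_trans (Finset.card_le_card ?_) (hx1 b hb)⟩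
        exact Finset.filter_subset_filter _ hT
  have hS₁ : S₁.card ≤ bs m s ^ 2 := by
    simp only [S₁]
    rw [Finset.card_product, card_small, card_small, sq]
    exact Nat.mul_le_mul (bs_mono hA s) (bs_mono hB s)
  have hS₂ : S₂.card ≤ bs m s ^ 2 * N := by
    refine le_trans Finset.card_biUnion_le ?_
    have hle : ∀ y ∈ A.powersetCard s ×ˢ B.powersetCard s, (prs r (C₂ y.2) (C₁ y.1)).card ≤ N := by
      intro y hy
      rw [Finset.mem_product, Finset.mem_powersetCard, Finset.mem_powersetCard] at hy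
      obtain ⟨⟨-, hy1⟩, -, hy2⟩ := hy
      apply hN
      · have hv := h2.var y.2 (by rw [hy2]; exact hs)
        rw [hy2] at hv
        have hle2 : (C₂ y.2).card ≤
            (univ.filter fun a => (y.2.filter fun b => r a b).card ≤ 1).card :=
          Finset.card_le_card (Finset.filter_subset_filter _ (Finset.subset_univ _))
        have : (C₂ y.2).card * s ≤ m' * s := (Nat.mul_le_mul_right s hle2).trans (hv.trans hm)
        exact Nat.le_of_mul_le_mul_right this hs0
      · have hv := h1.var y.1 (by rw [hy1]; exact hs)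
        rw [hy1] at hv
        have hle2 : (C₁ y.1).card ≤
            (univ.filter fun b => (y.1.filter fun a => r a b).card ≤ 1).card :=
          Finset.card_le_card (Finset.filter_subset_filter _ (Finset.subset_univ _))
        have : (C₁ y.1).card * s ≤ m' * s := (Nat.mul_le_mul_right s hle2).trans (hv.trans hm)
        exact Nat.le_of_mul_le_mul_right this hs0
    refine (Finset.sum_le_card_nsmul _ _ N hle).trans ?_
    rw [smul_eq_mul, Finset.card_product, Finset.card_powersetCard, Finset.card_powersetCard, sq]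
    refine Nat.mul_le_mul_right _ (Nat.mul_le_mul ?_ ?_)
    · exact (choose_le_bs _ _).trans (bs_mono hA s)
    · exact (choose_le_bs _ _).trans (bs_mono hB s)
  calc (prs r A B).card ≤ (S₁ ∪ S₂).card := Finset.card_le_card hsub
    _ ≤ S₁.card + S₂.card := Finset.card_union_le _ _
    _ ≤ bs m s ^ 2 + bs m s ^ 2 * N := Nat.add_le_add hS₁ hS₂
    _ = bs m s ^ 2 * (1 + N) := by ring

/-! ### The estimate for the binomial sums -/

theorem bs_bound {R k s : ℕ} (hs1 : R ≤ s * 2 ^ k) (hs2 : (s : ℝ) ≤ 2 * (R / 2 ^ k : ℝ)) :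
    (bs (4 * R * 2 ^ (k + 1)) s : ℝ) ≤ (2 : ℝ) ^ ((4 * k + 12) * (R / 2 ^ k : ℝ)) := by
  set u : ℝ := (R / 2 ^ k : ℝ) with hu
  have hu0 : 0 ≤ u := by positivity
  have h2k : (0 : ℝ) < 2 ^ k := by positivity
  set x : ℝ := (1 / 4 : ℝ) ^ k with hx
  have hx0 : 0 < x := by positivity
  have hx1 : x ≤ 1 := pow_le_one₀ (by norm_num) (by norm_num)
  have hb := bs_le (4 * R * 2 ^ (k + 1)) s hx0 hx1
  have hR : (R : ℝ) = u * 2 ^ k := by
    rw [hu]; field_simp
  have h4 : (4 : ℝ) ^ k = 2 ^ k * 2 ^ k := by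
    rw [← mul_pow]; norm_num
  have hxm : x * ((4 * R * 2 ^ (k + 1) : ℕ) : ℝ) = 8 * u := by
    push_cast
    rw [hx, one_div, inv_pow, hR, pow_succ, h4]
    field_simp
    ring
  have h1 : (1 + x) ^ (4 * R * 2 ^ (k + 1)) ≤ (2 : ℝ) ^ (12 * u) := by
    have h3 : 1 + x ≤ Real.exp x := by linarith [Real.add_one_le_exp x]
    calc (1 + x) ^ (4 * R * 2 ^ (k + 1)) ≤ (Real.exp x) ^ (4 * R * 2 ^ (k + 1)) :=
          pow_le_pow_left₀ (by positivity) h3 _
      _ = Real.exp (8 * u) := by
          rw [← Real.exp_nat_mul, mul_comm, hxm]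
      _ ≤ Real.exp (Real.log 2 * (12 * u)) := by
          apply Real.exp_le_exp.2
          have := Real.log_two_gt_d9
          nlinarith
      _ = (2 : ℝ) ^ (12 * u) := by
          rw [Real.rpow_def_of_pos (by norm_num)]
  have h2 : (2 : ℝ) ^ (-(4 * k * u) : ℝ) ≤ x ^ s := by
    have h3 : x ^ s = (2 : ℝ) ^ (-(2 * k * s) : ℝ) := by
      have e1 : (2 : ℝ) ^ (2 * (k : ℝ) * (s : ℝ)) = (4 : ℝ) ^ (k * s) := by
        rw [show (2 * (k : ℝ) * (s : ℝ)) = ((2 * (k * s) : ℕ) : ℝ) by push_cast; ring,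
          Real.rpow_natCast, pow_mul]
        norm_num
      rw [Real.rpow_neg (by norm_num), e1, hx, ← pow_mul, one_div, inv_pow]
    rw [h3]
    apply Real.rpow_le_rpow_of_exponent_le (by norm_num)
    have : (k : ℝ) * s ≤ k * (2 * u) := mul_le_mul_of_nonneg_left hs2 (Nat.cast_nonneg k)
    linarith
  have h3 : (bs (4 * R * 2 ^ (k + 1)) s : ℝ) * (2 : ℝ) ^ (-(4 * k * u) : ℝ) ≤
      (2 : ℝ) ^ (12 * u) :=
    (mul_le_mul_of_nonneg_left h2 (Nat.cast_nonneg _)).trans (hb.trans h1)
  rw [Real.rpow_neg (by norm_num), ← div_eq_mul_inv, div_le_iff₀ (by positivity),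
    ← Real.rpow_add (by norm_num)] at h3
  refine h3.trans (le_of_eq ?_)
  congr 1
  ring

open scoped Classical in
theorem prs_bound {α β : Type*} [Fintype α] [Fintype β] {r : α → β → Prop} {q : ℕ}
    (h1 : IsPl r q) (h2 : IsPl (fun b a => r a b) q) {R K : ℕ}
    (hR : q * (q + 1) ^ 2 ≤ R ^ 2) (hK : ∀ k < K, 2 * (q + 1) * 2 ^ k ≤ R) :
    ∀ k ≤ K, ∀ (A : Finset α) (B : Finset β), A.card ≤ 4 * R * 2 ^ k → B.card ≤ 4 * R * 2 ^ k →
      ((prs r A B).card : ℝ) ≤ (2 : ℝ) ^ ((74 - (16 * k + 66) / 2 ^ k : ℝ) * R) := by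
  intro k
  induction k with
  | zero =>
    intro _ A B hA hB
    have h3 : (prs r A B).card ≤ 2 ^ (4 * R) * 2 ^ (4 * R) := by
      unfold prs
      refine (Finset.card_filter_le _ _).trans ?_
      rw [Finset.card_product, Finset.card_powerset, Finset.card_powerset]
      exact Nat.mul_le_mul (Nat.pow_le_pow_right (by norm_num) (by simpa using hA))
        (Nat.pow_le_pow_right (by norm_num) (by simpa using hB))
    have h4 : ((prs r A B).card : ℝ) ≤ (2 : ℝ) ^ (4 * R) * 2 ^ (4 * R) := by exact_mod_cast h3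
    refine h4.trans (le_of_eq ?_)
    rw [← pow_add, ← Real.rpow_natCast]
    congr 1
    push_cast
    ring
  | succ k ih =>
    intro hk A B hA hB
    have hkK : k < K := hk
    have hkR := hK k hkK
    have h2k : (0 : ℝ) < 2 ^ k := by positivity
    have h2k' : 0 < 2 ^ k := by positivity
    -- `s = ⌈R / 2 ^ k⌉`
    obtain ⟨s, hs1, hs2⟩ : ∃ s : ℕ, R ≤ s * 2 ^ k ∧ s * 2 ^ k < R + 2 ^ k := by
      refine ⟨(R + 2 ^ k - 1) / 2 ^ k, ?_, ?_⟩
      · have := Nat.lt_div_mul_add h2k' (a := R + 2 ^ k - 1)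
        omega
      · have := Nat.div_mul_le_self (R + 2 ^ k - 1) (2 ^ k)
        omega
    have hRk : 2 ^ k ≤ R := by nlinarith
    have hs2' : (s : ℝ) ≤ 2 * (R / 2 ^ k : ℝ) := by
      have h5 : (s : ℝ) * 2 ^ k ≤ 2 * R := by
        have : s * 2 ^ k ≤ 2 * R := by omega
        exact_mod_cast this
      rw [← mul_div_assoc, le_div_iff₀ h2k]
      exact h5
    have hsq : 2 * (q + 1) ≤ s := by
      have : 2 * (q + 1) * 2 ^ k ≤ s * 2 ^ k := hkR.trans hs1
      exact Nat.le_of_mul_le_mul_right this h2k'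
    have hm : 4 * (q * (q + 1) ^ 2) ≤ (4 * R * 2 ^ k) * s := by
      calc 4 * (q * (q + 1) ^ 2) ≤ 4 * R ^ 2 := Nat.mul_le_mul_left 4 hR
        _ = 4 * R * R := by ring
        _ ≤ 4 * R * (s * 2 ^ k) := Nat.mul_le_mul_left _ hs1
        _ = _ := by ring
    -- bound for the smaller sets
    set c : ℝ := (74 - (16 * k + 66) / 2 ^ k : ℝ) * R with hc
    have hN : ∀ (A : Finset α) (B : Finset β), A.card ≤ 4 * R * 2 ^ k → B.card ≤ 4 * R * 2 ^ k →
        (prs r A B).card ≤ ⌊(2 : ℝ) ^ c⌋₊ := by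
      intro A B hA hB
      exact Nat.le_floor (ih (by omega) A B hA hB)
    have h5 := prs_step h1 h2 hsq hm hN A B hA hB
    have h6 : ((prs r A B).card : ℝ) ≤
        (bs (4 * R * 2 ^ (k + 1)) s : ℝ) ^ 2 * (1 + ((⌊(2 : ℝ) ^ c⌋₊ : ℕ) : ℝ)) := by
      exact_mod_cast h5
    have hb := bs_bound hs1 hs2'
    set u : ℝ := (R / 2 ^ k : ℝ) with hu
    have hu1 : 1 ≤ u := by
      rw [hu, le_div_iff₀ h2k, one_mul]
      exact_mod_cast hRk
    have hc0 : 0 ≤ c := by
      have hk66 : (16 * k + 66 : ℝ) / 2 ^ k ≤ 74 := by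
        rw [div_le_iff₀ h2k]
        have : ((k : ℝ)) + 1 ≤ 2 ^ k := by
          have := Nat.lt_two_pow_self (n := k)
          exact_mod_cast this
        nlinarith
      exact mul_nonneg (by linarith) (Nat.cast_nonneg R)
    have h7 : 1 + ((⌊(2 : ℝ) ^ c⌋₊ : ℕ) : ℝ) ≤ (2 : ℝ) ^ (c + 1) := by
      have h8 : ((⌊(2 : ℝ) ^ c⌋₊ : ℕ) : ℝ) ≤ (2 : ℝ) ^ c := Nat.floor_le (by positivity)
      have h9 : (1 : ℝ) ≤ (2 : ℝ) ^ c := Real.one_le_rpow (by norm_num) hc0
      rw [Real.rpow_add (by norm_num), Real.rpow_one]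
      linarith
    calc ((prs r A B).card : ℝ) ≤
        (bs (4 * R * 2 ^ (k + 1)) s : ℝ) ^ 2 * (1 + ((⌊(2 : ℝ) ^ c⌋₊ : ℕ) : ℝ)) := h6
      _ ≤ ((2 : ℝ) ^ ((4 * k + 12) * u)) ^ 2 * (2 : ℝ) ^ (c + 1) := by
          apply mul_le_mul _ h7 (by positivity) (by positivity)
          exact pow_le_pow_left₀ (Nat.cast_nonneg _) hb 2
      _ = (2 : ℝ) ^ ((8 * k + 24) * u + (c + 1)) := by
          rw [← Real.rpow_natCast, ← Real.rpow_mul (by norm_num), ← Real.rpow_add (by norm_num)]
          congr 1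
          push_cast
          ring
      _ ≤ (2 : ℝ) ^ ((74 - (16 * ((k + 1 : ℕ) : ℝ) + 66) / 2 ^ (k + 1) : ℝ) * R) := by
          apply Real.rpow_le_rpow_of_exponent_le (by norm_num)
          have hR' : (R : ℝ) = u * 2 ^ k := by
            rw [hu]; field_simp
          have e1 : (74 - (16 * ((k + 1 : ℕ) : ℝ) + 66) / 2 ^ (k + 1) : ℝ) * R =
              c + (8 * k + 25) * u := by
            rw [hc, hR', pow_succ]
            push_cast
            field_simp
            ring
          rw [e1]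
          linarith

open scoped Classical in
theorem prs_card_le {α β : Type*} [Fintype α] [Fintype β] {r : α → β → Prop} {q : ℕ}
    (h1 : IsPl r q) (h2 : IsPl (fun b a => r a b) q) {R : ℕ} (hq : 1 ≤ q)
    (hR : q * (q + 1) ^ 2 ≤ R ^ 2) :
    ((prs r univ univ).card : ℝ) ≤ (2 : ℝ) ^ (74 * R : ℝ) := by
  have hR0 : 0 < R := by
    by_contra h
    have : R = 0 := by omega
    subst this
    have : 0 < q * (q + 1) ^ 2 := by positivity
    omega
  have hex : ∃ K, q ^ 2 + q + 1 ≤ 4 * R * 2 ^ K := by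
    refine ⟨q ^ 2 + q + 1, ?_⟩
    have := Nat.lt_two_pow_self (n := q ^ 2 + q + 1)
    nlinarith
  have hK : ∀ k < Nat.find hex, 2 * (q + 1) * 2 ^ k ≤ R := by
    intro k hk
    have h3 := Nat.find_min hex hk
    push Not at h3
    have h4 : 4 * R * (2 * (q + 1) * 2 ^ k) ≤ 4 * R * R := by
      calc 4 * R * (2 * (q + 1) * 2 ^ k) = 2 * (q + 1) * (4 * R * 2 ^ k) := by ring
        _ ≤ 2 * (q + 1) * (q ^ 2 + q + 1) := Nat.mul_le_mul_left _ h3.le
        _ ≤ 4 * (q * (q + 1) ^ 2) := by nlinarith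
        _ ≤ 4 * R ^ 2 := Nat.mul_le_mul_left 4 hR
        _ = 4 * R * R := by ring
    exact Nat.le_of_mul_le_mul_left h4 (by omega)
  have h5 := prs_bound h1 h2 hR hK (Nat.find hex) le_rfl univ univ
    (by rw [Finset.card_univ, h2.card]; exact Nat.find_spec hex)
    (by rw [Finset.card_univ, h1.card]; exact Nat.find_spec hex)
  refine h5.trans (Real.rpow_le_rpow_of_exponent_le (by norm_num) ?_)
  have : (0 : ℝ) ≤ (16 * ((Nat.find hex : ℕ) : ℝ) + 66) / 2 ^ (Nat.find hex) := by positivity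
  have hR1 : (0 : ℝ) ≤ R := Nat.cast_nonneg R
  nlinarith

end Pool.Agent.Helper1.DS
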