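import Mathlib

/-!
# Dominating sets of incidence structures: definitions
-/

set_option autoImplicit false

namespace Pool.Agent.Helper1.DS

section

variable {P L : Type*} [Membership P L]

/-- A set of points and lines is dominating if every point outside of it is on a line of it and
every line outside of it contains a point of it. -/
def IsDom (D : Set P × Set L) : Prop :=
  (∀ p, p ∉ D.1 → ∃ l ∈ D.2, p ∈ l) ∧ ∀ l, l ∉ D.2 → ∃ p ∈ D.1, p ∈ l

/-- A set of points and lines is independent if no point of it is on a line of it. -/
def IsInd (D : Set P × Set L) : Prop := ∀ p ∈ D.1, ∀ l ∈ D.2, p ∉ l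

end

/-- The number of independent dominating sets. -/
noncomputable def iNum (P L : Type*) [Membership P L] : ℕ :=
  Nat.card {D : Set P × Set L // IsDom D ∧ IsInd D}

/-- The number of minimal dominating sets. -/
noncomputable def mNum (P L : Type*) [Membership P L] : ℕ :=
  Nat.card {D : Set P × Set L // Minimal IsDom D}

end Pool.Agent.Helper1.DS
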