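import Pool.Agent.Helper1.DS.Defs

/-!
# Lower bounds for the number of independent dominating sets
-/

set_option autoImplicit false

namespace Pool.Agent.Helper1.DS

section

variable {P L : Type*} [Membership P L]

theorem two_pow_le_iNum [Finite P] [Finite L] {Ω : Type*} [Finite Ω] (f : Ω → P) (g : Ω → L)
    (h : ∀ i j, f i ∈ g j ↔ i = j) : 2 ^ Nat.card Ω ≤ iNum P L := by
  classical
  have : Fintype Ω := Fintype.ofFinite Ω
  let M : Set Ω → Set L := fun S => {l | ∀ i ∈ S, f i ∉ l}
  let Q : Set Ω → Set P := fun S => {p | ∀ l ∈ M S, p ∉ l}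
  have hD : ∀ S : Set Ω, IsDom (Q S, M S) ∧ IsInd (Q S, M S) := by
    intro S
    refine ⟨⟨?_, ?_⟩, ?_⟩
    · intro p hp
      have hp' : ¬ ∀ l ∈ M S, p ∉ l := hp
      push Not at hp'
      exact hp'
    · intro l hl
      have hl' : ¬ ∀ i ∈ S, f i ∉ l := hl
      push Not at hl'
      obtain ⟨i, hi, hil⟩ := hl'
      exact ⟨f i, fun l' hl' => hl' i hi, hil⟩
    · intro p hp l hl
      exact hp l hl
  have hcard : Nat.card (Set Ω) = 2 ^ Nat.card Ω := by
    rw [Nat.card_eq_fintype_card, Fintype.card_set, Nat.card_eq_fintype_card]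
  rw [← hcard]
  unfold iNum
  refine Nat.card_le_card_of_injective
    (fun S => ⟨(Q S, M S), hD S⟩ : Set Ω → {D : Set P × Set L // IsDom D ∧ IsInd D}) ?_
  intro S S' hSS
  have h1 : Q S = Q S' :=
    congrArg (fun E : {D : Set P × Set L // IsDom D ∧ IsInd D} => E.1.1) hSS
  have h2 : ∀ S : Set Ω, ∀ i, i ∈ S ↔ f i ∈ Q S := by
    intro S i
    constructor
    · intro hi l hl
      exact hl i hi
    · intro hi
      by_contra hni
      refine hi (g i) (fun j hj hji => ?_) ((h i i).2 rfl)
      exact hni ((h j i).1 hji ▸ hj)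
  ext i
  rw [h2 S i, h2 S' i, h1]

end

section

open scoped LinearAlgebra.Projectivization

open Projectivization

variable {K : Type*} [Field K] [Finite K]

/-- Points of the affine plane and non-vertical lines through them such that each line contains only
its own point: a lower bound for the number of independent dominating sets. -/
theorem aff_lower {Ω : Type*} [Finite Ω] (x y s : Ω → K)
    (h : ∀ i j, y i - y j = s j * (x i - x j) → i = j) :
    2 ^ Nat.card Ω ≤ iNum (ℙ K (Fin 3 → K)) (ℙ K (Fin 3 → K)) := by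
  have hp : ∀ i, (![x i, y i, 1] : Fin 3 → K) ≠ 0 := by
    intro i h0
    have := congrFun h0 2
    simp at this
  have hl : ∀ j, (![s j, -1, y j - s j * x j] : Fin 3 → K) ≠ 0 := by
    intro j h0
    have := congrFun h0 1
    simp at this
  refine two_pow_le_iNum (fun i => mk K _ (hp i)) (fun j => mk K _ (hl j)) fun i j => ?_
  rw [Configuration.ofField.mem_iff, orthogonal_mk]
  simp only [Matrix.dotProduct_cons, Matrix.dotProduct_of_isEmpty,
    Matrix.vecHead, Matrix.vecTail, Function.comp_apply, Matrix.cons_val_zero, Matrix.cons_val_succ]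
  constructor
  · intro h0
    apply h
    simp at h0
    linear_combination (-1 : K) * h0
  · rintro rfl
    simp
    ring

theorem order_eq [DecidableEq K] : Configuration.ProjectivePlane.order (ℙ K (Fin 3 → K))
    (ℙ K (Fin 3 → K)) = Nat.card K := by
  have : Fintype (ℙ K (Fin 3 → K)) := Fintype.ofFinite _
  have h1 := Configuration.ProjectivePlane.card_points (ℙ K (Fin 3 → K)) (ℙ K (Fin 3 → K))
  have h2 : Nat.card (ℙ K (Fin 3 → K)) = Nat.card K ^ 2 + Nat.card K + 1 := by
    rw [Projectivization.card_of_finrank K (Fin 3 → K) (n := 3) (by simp)]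
    simp [Finset.sum_range_succ]
    ring
  rw [Nat.card_eq_fintype_card, h1] at h2
  set q := Configuration.ProjectivePlane.order (ℙ K (Fin 3 → K)) (ℙ K (Fin 3 → K))
  rcases lt_trichotomy q (Nat.card K) with h | h | h
  · nlinarith
  · exact h
  · nlinarith

/-! ### Hermitian curves -/

omit [Finite K] in
theorem card_le_of_roots {r : ℕ} {p : Polynomial K} (hp : p ≠ 0) (hr : p.natDegree ≤ r) {S : Set K}
    (hS : ∀ x ∈ S, p.eval x = 0) : Nat.card S ≤ r := by
  classical
  have h1 : S ⊆ (p.roots.toFinset : Set K) := by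
    intro x hx
    rw [Finset.mem_coe, Multiset.mem_toFinset, Polynomial.mem_roots hp]
    exact hS x hx
  have h2 : Nat.card S ≤ p.roots.toFinset.card := by
    rw [Nat.card_coe_set_eq]
    have := Set.ncard_le_ncard h1 (Finset.finite_toSet _)
    rw [Set.ncard_coe_finset] at this
    exact this
  exact h2.trans ((Multiset.toFinset_card_le _).trans ((Polynomial.card_roots' p).trans hr))

theorem unital_lower {r : ℕ} (hK : Nat.card K = r ^ 2) :
    2 ^ (r ^ 3) ≤ iNum (ℙ K (Fin 3 → K)) (ℙ K (Fin 3 → K)) := by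
  classical
  have : Fintype K := Fintype.ofFinite K
  have hK' : Fintype.card K = r ^ 2 := by rw [← Nat.card_eq_fintype_card, hK]
  have hr2 : 2 ≤ r := by
    have h1 : 1 < Fintype.card K := Fintype.one_lt_card
    rw [hK'] at h1
    by_contra hlt
    have : r ≤ 1 := by omega
    have : r ^ 2 ≤ 1 ^ 2 := Nat.pow_le_pow_left this 2
    omega
  obtain ⟨ℓ, hℓ⟩ := CharP.exists K
  obtain ⟨n, hℓp, hn⟩ := FiniteField.card K ℓ
  obtain ⟨m, -, hm⟩ := (Nat.dvd_prime_pow hℓp).1 (show r ∣ ℓ ^ (n : ℕ) by
    rw [← hn, hK']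
    exact dvd_pow_self r two_ne_zero)
  have : Fact ℓ.Prime := ⟨hℓp⟩
  have : ExpChar K ℓ := inferInstance
  let σ : K →+* K := iterateFrobenius K ℓ m
  have hσ : ∀ x, σ x = x ^ r := by
    intro x
    rw [hm]
    exact iterateFrobenius_def ℓ m x
  have hσσ : ∀ x, σ (σ x) = x := by
    intro x
    rw [hσ, hσ, ← pow_mul, ← sq, ← hK', FiniteField.pow_card]
  let τ : K →+ K := σ.toAddMonoidHom + AddMonoidHom.id K
  have hτ : ∀ x, τ x = σ x + x := fun _ => rfl
  have hker : Nat.card τ.ker ≤ r := by
    refine card_le_of_roots (p := Polynomial.X ^ r + Polynomial.X) ?_ ?_ (S := (τ.ker : Set K)) ?_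
    · intro h0
      have h1 := congrArg (fun p => Polynomial.coeff p r) h0
      simp only [Polynomial.coeff_add, Polynomial.coeff_X_pow, if_true, Polynomial.coeff_X,
        Polynomial.coeff_zero] at h1
      rw [if_neg (by omega)] at h1
      simp at h1
    · refine (Polynomial.natDegree_add_le _ _).trans ?_
      rw [Polynomial.natDegree_X_pow, Polynomial.natDegree_X]
      omega
    · intro x hx
      have h1 : τ x = 0 := hx
      rw [hτ, hσ] at h1
      simpa using h1
  have hfix : Nat.card {c : K | σ c = c} ≤ r := by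
    refine card_le_of_roots (p := Polynomial.X ^ r - Polynomial.X) ?_ ?_ ?_
    · intro h0
      have h1 := congrArg (fun p => Polynomial.coeff p r) h0
      simp only [Polynomial.coeff_sub, Polynomial.coeff_X_pow, if_true, Polynomial.coeff_X,
        Polynomial.coeff_zero] at h1
      rw [if_neg (by omega)] at h1
      simp at h1
    · refine (Polynomial.natDegree_sub_le _ _).trans ?_
      rw [Polynomial.natDegree_X_pow, Polynomial.natDegree_X]
      omega
    · intro x hx
      have h1 : σ x = x := hx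
      rw [hσ] at h1
      simp [h1]
  have hrange : (τ.range : Set K) ⊆ {c : K | σ c = c} := by
    rintro _ ⟨x, rfl⟩
    change σ (τ x) = τ x
    rw [hτ, map_add, hσσ, add_comm]
  have hmul : Nat.card τ.ker * Nat.card τ.range = r ^ 2 := by
    rw [← hK, ← AddSubgroup.index_ker, AddSubgroup.card_mul_index]
  have hrr : Nat.card τ.range ≤ r :=
    (Nat.card_mono (Set.toFinite _) hrange).trans hfix
  have hker' : Nat.card τ.ker = r := by nlinarith
  have hrange' : Nat.card τ.range = r := by nlinarith
  have heq : (τ.range : Set K) = {c : K | σ c = c} := by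
    apply Set.eq_of_subset_of_ncard_le hrange _ (Set.toFinite _)
    rw [← Nat.card_coe_set_eq, ← Nat.card_coe_set_eq]
    exact hfix.trans hrange'.ge
  have hx : ∀ y : K, ∃ x : K, σ x + x = -(y * σ y) := by
    intro y
    have h1 : -(y * σ y) ∈ (τ.range : Set K) := by
      rw [heq]
      change σ (-(y * σ y)) = -(y * σ y)
      rw [map_neg, map_mul, hσσ, mul_comm]
    exact h1
  choose x₀ hx₀ using hx
  have hcard : Nat.card (K × τ.ker) = r ^ 3 := by
    rw [Nat.card_prod, hK, hker']
    ring
  rw [← hcard]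
  refine aff_lower (Ω := K × τ.ker) (fun i => i.1) (fun i => x₀ i.1 + i.2.1) (fun i => -σ i.1) ?_
  rintro ⟨y, k⟩ ⟨y', k'⟩ h
  have h' : x₀ y + k.1 - (x₀ y' + k'.1) = -σ y' * (y - y') := h
  have hk : σ k.1 + k.1 = 0 := k.2
  have hk' : σ k'.1 + k'.1 = 0 := k'.2
  have h2 := congrArg σ h'
  rw [map_sub, map_add, map_add, map_mul, map_neg, map_sub, hσσ] at h2
  have h3 : (y - y') * σ (y - y') = 0 := by
    rw [map_sub]
    linear_combination -h' - h2 + hx₀ y - hx₀ y' + hk - hk'
  have h4 : y = y' := by
    rcases mul_eq_zero.1 h3 with h5 | h5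
    · exact sub_eq_zero.1 h5
    · have : y - y' = 0 := by
        rw [← hσσ (y - y'), h5, map_zero]
      exact sub_eq_zero.1 this
  subst h4
  have h5 : k.1 = k'.1 := by
    rw [sub_self, mul_zero] at h'
    linear_combination h'
  rw [Subtype.ext h5]

end

end Pool.Agent.Helper1.DS
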