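import Pool.Agent.Helper1.DS.Ring

/-!
# Planes of prime order
-/

set_option autoImplicit false

namespace Pool.Agent.Helper1.DS

open Finset Polynomial

theorem irr_X_pow_sub_C {ℓ a : ℤ} (hℓ : Prime ℓ) (h1 : ℓ ∣ a) (h2 : ¬ ℓ ^ 2 ∣ a) {d : ℕ}
    (hd : 0 < d) : Irreducible (X ^ d - C a : ℤ[X]) := by
  have hm : (X ^ d - C a : ℤ[X]).Monic := monic_X_pow_sub_C a hd.ne'
  have hdeg : (X ^ d - C a : ℤ[X]).natDegree = d := natDegree_X_pow_sub_C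
  refine IsEisensteinAt.irreducible (𝓟 := Ideal.span {ℓ}) ⟨?_, ?_, ?_⟩ ?_ hm.isPrimitive ?_
  · rw [hm.leadingCoeff]
    intro h
    rw [Ideal.mem_span_singleton] at h
    exact hℓ.not_isUnit (isUnit_of_dvd_one h)
  · intro n hn
    rw [hdeg] at hn
    rw [coeff_sub, coeff_X_pow, if_neg hn.ne, coeff_C]
    split_ifs
    · rw [Ideal.mem_span_singleton, zero_sub, dvd_neg]
      exact h1
    · simp
  · rw [coeff_sub, coeff_X_pow, if_neg hd.ne, coeff_C_zero, zero_sub, neg_mem_iff,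
      Ideal.span_singleton_pow, Ideal.mem_span_singleton]
    exact h2
  · rw [Ideal.span_singleton_prime hℓ.ne_zero]
    exact hℓ
  · rw [hdeg]
    exact hd

/-- The constants used: `2` and `3 * 2 ^ j`. -/
def lst (d : ℕ) : Finset ℤ := insert 2 ((range d).image fun j => 3 * 2 ^ j)

theorem irr_lst {d : ℕ} (hd : 0 < d) {a : ℤ} (ha : a ∈ lst d) :
    Irreducible (X ^ d - C a : ℤ[X]) := by
  unfold lst at ha
  rw [Finset.mem_insert, Finset.mem_image] at ha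
  rcases ha with rfl | ⟨j, -, rfl⟩
  · exact irr_X_pow_sub_C Int.prime_two (dvd_refl _) (by norm_num) hd
  · refine irr_X_pow_sub_C Int.prime_three (dvd_mul_right _ _) ?_ hd
    intro h
    rw [sq, mul_dvd_mul_iff_left (by norm_num)] at h
    have := Int.prime_three.dvd_of_dvd_pow h
    norm_num at this

theorem exists_root {d p : ℕ} (hd : d.Prime) [hp : Fact p.Prime] (hp3 : 3 < p) :
    ∃ a ∈ lst d, ∃ g : ZMod p, g ^ d = (a : ZMod p) := by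
  have h2 : (2 : ZMod p) ≠ 0 := by
    intro h
    have h' : ((2 : ℕ) : ZMod p) = 0 := by exact_mod_cast h
    rw [ZMod.natCast_eq_zero_iff] at h'
    have := Nat.le_of_dvd (by norm_num) h'
    omega
  have h3 : (3 : ZMod p) ≠ 0 := by
    intro h
    have h' : ((3 : ℕ) : ZMod p) = 0 := by exact_mod_cast h
    rw [ZMod.natCast_eq_zero_iff] at h'
    have := Nat.le_of_dvd (by norm_num) h'
    omega
  obtain ⟨γ, hγ⟩ := IsCyclic.exists_monoid_generator (α := (ZMod p)ˣ)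
  obtain ⟨s, hs⟩ := Submonoid.mem_powers_iff _ _ |>.1 (hγ (Units.mk0 2 h2))
  obtain ⟨t, ht⟩ := Submonoid.mem_powers_iff _ _ |>.1 (hγ (Units.mk0 3 h3))
  have hs' : (γ : ZMod p) ^ s = 2 := by
    rw [← Units.val_pow_eq_pow_val, hs]; rfl
  have ht' : (γ : ZMod p) ^ t = 3 := by
    rw [← Units.val_pow_eq_pow_val, ht]; rfl
  by_cases hds : d ∣ s
  · obtain ⟨k, rfl⟩ := hds
    refine ⟨2, Finset.mem_insert_self _ _, (γ : ZMod p) ^ k, ?_⟩
    rw [← pow_mul, mul_comm k d, hs']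
    norm_num
  · -- choose `j` with `d ∣ t + s * j`
    have : Fact d.Prime := ⟨hd⟩
    have hs0 : (s : ZMod d) ≠ 0 := by
      rw [Ne, ZMod.natCast_eq_zero_iff]
      exact hds
    set j : ℕ := (-(t : ZMod d) / (s : ZMod d)).val with hj
    have hjd : j < d := ZMod.val_lt _
    have hdiv : d ∣ t + s * j := by
      rw [← ZMod.natCast_eq_zero_iff]
      push_cast
      rw [hj, ZMod.natCast_zmod_val]
      field_simp
      ring
    obtain ⟨k, hk⟩ := hdiv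
    refine ⟨3 * 2 ^ j, Finset.mem_insert_of_mem (Finset.mem_image.2 ⟨j, Finset.mem_range.2 hjd, rfl⟩),
      (γ : ZMod p) ^ k, ?_⟩
    rw [← pow_mul, mul_comm k d, ← hk, pow_add, pow_mul, ht', hs']
    push_cast
    ring

open scoped LinearAlgebra.Projectivization

theorem prime_lower_aux {d : ℕ} (hd : d.Prime) : ∃ C : ℕ, 0 < C ∧
    ∀ (p : ℕ) [Fact p.Prime], 3 < p → ∀ m : ℕ, 1 ≤ m → C * m ^ (2 * d) < p →
      ∃ n : ℕ, m ^ (3 * d) ≤ C * m ^ 2 * n ∧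
        2 ^ n ≤ iNum (ℙ (ZMod p) (Fin 3 → ZMod p)) (ℙ (ZMod p) (Fin 3 → ZMod p)) := by
  have key : ∀ a : ℤ, ∃ C : ℕ, 0 < C ∧ (a ∈ lst d →
      ∀ (p : ℕ) [Fact p.Prime] (g : ZMod p), g ^ d = (a : ZMod p) → ∀ m : ℕ, 1 ≤ m →
        C * m ^ (2 * d) < p → ∃ n : ℕ, m ^ (3 * d) ≤ C * m ^ 2 * n ∧
        2 ^ n ≤ iNum (ℙ (ZMod p) (Fin 3 → ZMod p)) (ℙ (ZMod p) (Fin 3 → ZMod p))) := by
    intro a
    by_cases ha : a ∈ lst d
    · have hirr := irr_lst hd.pos ha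
      have hm : (X ^ d - C a : ℤ[X]).Monic := monic_X_pow_sub_C a hd.pos.ne'
      have hdeg : (X ^ d - C a : ℤ[X]).natDegree = d := natDegree_X_pow_sub_C
      have : IsDomain (AdjoinRoot (X ^ d - C a : ℤ[X])) :=
        AdjoinRoot.isDomain_of_prime hirr.prime
      let pb := AdjoinRoot.powerBasis' hm
      have hdim : pb.dim = d := (AdjoinRoot.powerBasis'_dim hm).trans hdeg
      obtain ⟨C₀, hC₀, hC⟩ := ring_lower (pb.basis.reindex (finCongr hdim)) hd.pos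
      refine ⟨C₀, hC₀, fun _ p _ g hg m hm1 hmp => ?_⟩
      refine hC p (AdjoinRoot.lift (Int.castRingHom (ZMod p)) g ?_) m hm1 hmp
      rw [eval₂_sub, eval₂_X_pow, eval₂_C, hg]
      simp
    · exact ⟨1, one_pos, fun h => absurd h ha⟩
  choose Cf hCf hCf2 using key
  refine ⟨∑ a ∈ lst d, Cf a, ?_, ?_⟩
  · refine Finset.sum_pos (fun a _ => hCf a) ⟨2, Finset.mem_insert_self _ _⟩
  · intro p _ hp3 m hm hmp
    obtain ⟨a, ha, g, hg⟩ := exists_root hd hp3 (p := p)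
    have hle : Cf a ≤ ∑ a ∈ lst d, Cf a :=
      Finset.single_le_sum (f := Cf) (fun _ _ => Nat.zero_le _) ha
    obtain ⟨n, hn1, hn2⟩ := hCf2 a ha p g hg m hm
      (lt_of_le_of_lt (Nat.mul_le_mul_right _ hle) hmp)
    exact ⟨n, hn1.trans (Nat.mul_le_mul_right _ (Nat.mul_le_mul_right _ hle)), hn2⟩

theorem prime_lower {ε : ℝ} (hε : 0 < ε) : ∃ p₀ : ℕ, ∀ (p : ℕ) [Fact p.Prime], p₀ ≤ p →
    (p : ℝ) ^ (3 / 2 - ε) ≤
      Real.logb 2 (iNum (ℙ (ZMod p) (Fin 3 → ZMod p)) (ℙ (ZMod p) (Fin 3 → ZMod p))) := by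
  -- choose `d`
  obtain ⟨d, hd1, hd⟩ := Nat.exists_infinite_primes (⌈2 / ε⌉₊ + 1)
  have hd0 : (0 : ℝ) < d := by exact_mod_cast hd.pos
  have hdε : 1 / (d : ℝ) < ε := by
    have h1 : 2 / ε < d := by
      have h2 : 2 / ε ≤ (⌈2 / ε⌉₊ : ℝ) := Nat.le_ceil _
      have h3 : ((⌈2 / ε⌉₊ : ℕ) : ℝ) + 1 ≤ d := by exact_mod_cast hd1
      linarith
    rw [div_lt_iff₀ hε] at h1
    rw [div_lt_iff₀ hd0]
    linarith
  obtain ⟨C, hC0, hC⟩ := prime_lower_aux hd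
  have hC0' : (0 : ℝ) < C := by exact_mod_cast hC0
  -- the constant
  set e : ℝ := 3 / 2 - 1 / d with he
  set c : ℝ := (1 / (2 * C) : ℝ) ^ e / (2 ^ (3 * d - 2) * C) with hc
  have hcpos : 0 < c := by positivity
  have hev : ∀ᶠ p : ℕ in Filter.atTop, 3 < p ∧ 1 ≤ ((p : ℝ) / (2 * C)) ^ (1 / (2 * d) : ℝ) ∧
      1 ≤ c * (p : ℝ) ^ (ε - 1 / d) := by
    refine (Filter.eventually_gt_atTop 3).and (Filter.Eventually.and ?_ ?_)
    · filter_upwards [Filter.eventually_ge_atTop (2 * C)] with p hp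
      have h1 : (1 : ℝ) ≤ (p : ℝ) / (2 * C) := by
        rw [le_div_iff₀ (by positivity), one_mul]
        exact_mod_cast hp
      exact Real.one_le_rpow h1 (by positivity)
    · have h1 : Filter.Tendsto (fun p : ℕ => (p : ℝ) ^ (ε - 1 / d)) Filter.atTop Filter.atTop :=
        (tendsto_rpow_atTop (by linarith)).comp tendsto_natCast_atTop_atTop
      filter_upwards [h1.eventually_ge_atTop (1 / c)] with p hp
      rw [div_le_iff₀ hcpos] at hp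
      linarith
  obtain ⟨p₀, hp₀⟩ := Filter.eventually_atTop.1 hev
  refine ⟨p₀, fun p _ hp => ?_⟩
  obtain ⟨hp3, hx1, hlast⟩ := hp₀ p hp
  have hppos : (0 : ℝ) < p := by
    have : 0 < p := by omega
    exact_mod_cast this
  set x : ℝ := ((p : ℝ) / (2 * C)) ^ (1 / (2 * d) : ℝ) with hx
  have hm1 : 1 ≤ ⌊x⌋₊ := Nat.le_floor (by simpa using hx1)
  have hmx : ((⌊x⌋₊ : ℕ) : ℝ) ≤ x := Nat.floor_le (by linarith)
  have hmx2 : x / 2 ≤ ((⌊x⌋₊ : ℕ) : ℝ) := by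
    have h1 := Nat.lt_floor_add_one x
    have h2 : (1 : ℝ) ≤ ((⌊x⌋₊ : ℕ) : ℝ) := by exact_mod_cast hm1
    linarith
  have hx2d : x ^ (2 * d) = (p : ℝ) / (2 * C) := by
    rw [hx, ← Real.rpow_natCast, ← Real.rpow_mul (by positivity)]
    push_cast
    rw [one_div, inv_mul_cancel₀ (by positivity), Real.rpow_one]
  have hmp : C * ⌊x⌋₊ ^ (2 * d) < p := by
    have h1 : (C : ℝ) * ((⌊x⌋₊ : ℕ) : ℝ) ^ (2 * d) < p := by
      calc (C : ℝ) * ((⌊x⌋₊ : ℕ) : ℝ) ^ (2 * d) ≤ C * x ^ (2 * d) := by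
            gcongr
        _ = p / 2 := by
            rw [hx2d]; field_simp
        _ < p := by linarith
    exact_mod_cast h1
  obtain ⟨n, hn1, hn2⟩ := hC p hp3 _ hm1 hmp
  have hlog : (n : ℝ) ≤
      Real.logb 2 (iNum (ℙ (ZMod p) (Fin 3 → ZMod p)) (ℙ (ZMod p) (Fin 3 → ZMod p))) := by
    have h1 : (0 : ℝ) < (iNum (ℙ (ZMod p) (Fin 3 → ZMod p)) (ℙ (ZMod p) (Fin 3 → ZMod p)) : ℝ) := by
      have : 0 < 2 ^ n := by positivity
      exact_mod_cast lt_of_lt_of_le this hn2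
    rw [Real.le_logb_iff_rpow_le (by norm_num) h1, Real.rpow_natCast]
    exact_mod_cast hn2
  refine le_trans ?_ hlog
  -- `n ≥ m ^ (3 d - 2) / C`
  have h3d : 3 * d = (3 * d - 2) + 2 := by
    have := hd.two_le
    omega
  have hn3 : ((⌊x⌋₊ : ℕ) : ℝ) ^ (3 * d - 2) ≤ C * n := by
    have h1 : ((⌊x⌋₊ : ℕ) : ℝ) ^ (3 * d) ≤ C * ((⌊x⌋₊ : ℕ) : ℝ) ^ 2 * n := by exact_mod_cast hn1
    rw [h3d, pow_add] at h1
    have h2 : (0 : ℝ) < ((⌊x⌋₊ : ℕ) : ℝ) ^ 2 := by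
      have : (1 : ℝ) ≤ ((⌊x⌋₊ : ℕ) : ℝ) := by exact_mod_cast hm1
      positivity
    have h4 : ((⌊x⌋₊ : ℕ) : ℝ) ^ (3 * d - 2) * ((⌊x⌋₊ : ℕ) : ℝ) ^ 2 ≤
        (C * n) * ((⌊x⌋₊ : ℕ) : ℝ) ^ 2 := by
      calc _ ≤ C * ((⌊x⌋₊ : ℕ) : ℝ) ^ 2 * n := h1
        _ = _ := by ring
    exact le_of_mul_le_mul_right h4 h2
  have hxp : x ^ (3 * d - 2) = ((p : ℝ) / (2 * C)) ^ e := by
    rw [hx, ← Real.rpow_natCast, ← Real.rpow_mul (by positivity)]
    congr 1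
    have : ((3 * d - 2 : ℕ) : ℝ) = 3 * d - 2 := by
      have h2 : 2 ≤ 3 * d := by omega
      push_cast [Nat.cast_sub h2]
      ring
    rw [this, he]
    field_simp
  have hn4 : c * (p : ℝ) ^ e ≤ n := by
    have h1 : (x / 2) ^ (3 * d - 2) ≤ C * n := (pow_le_pow_left₀ (by linarith) hmx2 _).trans hn3
    rw [div_pow, hxp, div_eq_mul_one_div (p : ℝ), Real.mul_rpow hppos.le (by positivity)] at h1
    rw [hc]
    rw [div_mul_eq_mul_div, div_le_iff₀ (by positivity)]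
    rw [div_le_iff₀ (by positivity)] at h1
    calc (1 / (2 * C) : ℝ) ^ e * (p : ℝ) ^ e = (p : ℝ) ^ e * (1 / (2 * C) : ℝ) ^ e := by ring
      _ ≤ C * n * 2 ^ (3 * d - 2) := h1
      _ = _ := by ring
  refine le_trans ?_ hn4
  have h5 : (p : ℝ) ^ e = (p : ℝ) ^ (3 / 2 - ε) * (p : ℝ) ^ (ε - 1 / d) := by
    rw [← Real.rpow_add hppos]
    congr 1
    rw [he]
    ring
  rw [h5]
  have h6 : (0 : ℝ) < (p : ℝ) ^ (3 / 2 - ε) := by positivity
  calc (p : ℝ) ^ (3 / 2 - ε) = (p : ℝ) ^ (3 / 2 - ε) * 1 := by ring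
    _ ≤ (p : ℝ) ^ (3 / 2 - ε) * (c * (p : ℝ) ^ (ε - 1 / d)) :=
        mul_le_mul_of_nonneg_left hlast h6.le
    _ = _ := by ring

end Pool.Agent.Helper1.DS
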