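import Pool.Agent.Helper1.DS.Lower

/-!
# Tangent systems in the plane over `ZMod p` from rings of algebraic integers
-/

set_option autoImplicit false

namespace Pool.Agent.Helper1.DS

open Finset Module

section ring

variable {R : Type*} [CommRing R] [IsDomain R] {d : ℕ} (b : Basis (Fin d) ℤ R)

/-- The sum of the absolute values of the structure constants. -/
noncomputable def sc : ℤ := ∑ i, ∑ j, ∑ l, |b.repr (b i * b j) l|

omit [IsDomain R] in
theorem sc_nonneg : 0 ≤ sc b :=
  Finset.sum_nonneg fun _ _ => Finset.sum_nonneg fun _ _ => Finset.sum_nonneg fun _ _ =>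
    abs_nonneg _

omit [IsDomain R] in
theorem repr_mul (u v : R) (l : Fin d) :
    b.repr (u * v) l = ∑ i, ∑ j, b.repr u i * b.repr v j * b.repr (b i * b j) l := by
  conv_lhs => rw [← b.sum_repr u, ← b.sum_repr v]
  rw [Finset.sum_mul_sum, map_sum, Finsupp.finsetSum_apply]
  refine Finset.sum_congr rfl fun i _ => ?_
  rw [map_sum, Finsupp.finsetSum_apply]
  refine Finset.sum_congr rfl fun j _ => ?_
  rw [smul_mul_smul_comm, map_smul, Finsupp.smul_apply, smul_eq_mul]

omit [IsDomain R] in
theorem repr_mul_le {u v : R} {U V : ℤ} (hu : ∀ i, |b.repr u i| ≤ U) (hv : ∀ i, |b.repr v i| ≤ V)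
    (hU : 0 ≤ U) (l : Fin d) : |b.repr (u * v) l| ≤ sc b * (U * V) := by
  rw [repr_mul]
  unfold sc
  rw [Finset.sum_mul]
  refine (Finset.abs_sum_le_sum_abs _ _).trans (Finset.sum_le_sum fun i _ => ?_)
  rw [Finset.sum_mul]
  refine (Finset.abs_sum_le_sum_abs _ _).trans (Finset.sum_le_sum fun j _ => ?_)
  rw [abs_mul, abs_mul, mul_comm]
  refine mul_le_mul ?_ (mul_le_mul (hu i) (hv j) (abs_nonneg _) hU)
    (mul_nonneg (abs_nonneg _) (abs_nonneg _)) (Finset.sum_nonneg fun _ _ => abs_nonneg _)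
  exact Finset.single_le_sum (f := fun l => |b.repr (b i * b j) l|) (fun _ _ => abs_nonneg _)
    (Finset.mem_univ l)

/-- An element with small coordinates which is mapped to `0` in `ZMod p` is `0`. -/
theorem eq_zero_of_small {p : ℕ} [Fact p.Prime] (π : R →+* ZMod p) {z : R} {Z : ℤ}
    (hz : ∀ i, |b.repr z i| ≤ Z) (hZ : 0 ≤ Z)
    (hp : (d.factorial : ℤ) * (sc b * Z) ^ d < p) (h0 : π z = 0) : z = 0 := by
  classical
  by_contra hne
  have hN : Algebra.norm ℤ z ≠ 0 := by
    rw [Ne, Algebra.norm_eq_zero_iff_of_basis b]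
    exact hne
  rw [Algebra.norm_eq_matrix_det b] at hN
  set M := Algebra.leftMulMatrix b z with hM
  have hMij : ∀ i j, M i j = b.repr (z * b j) i := by
    intro i j
    rw [hM, Algebra.leftMulMatrix_eq_repr_mul]
  -- the bound
  have h1 : |M.det| ≤ (d.factorial : ℤ) * (sc b * Z) ^ d := by
    have hent : ∀ i j, |M i j| ≤ sc b * Z := by
      intro i j
      rw [hMij]
      have h2 := repr_mul_le b (v := b j) (V := 1) hz (fun i => by
        rw [b.repr_self, Finsupp.single_apply]
        split_ifs <;> simp) hZ i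
      simpa using h2
    have h3 := Matrix.det_le (A := M) (abv := AbsoluteValue.abs) (x := sc b * Z) hent
    rw [Fintype.card_fin, nsmul_eq_mul] at h3
    exact h3
  -- divisibility
  have h2 : (M.map (Int.castRingHom (ZMod p))).det = 0 := by
    rw [← Matrix.exists_vecMul_eq_zero_iff]
    refine ⟨fun i => π (b i), ?_, ?_⟩
    · intro hv
      have h3 : (1 : ZMod p) = 0 := by
        rw [← map_one π, ← b.sum_repr (1 : R), map_sum]
        refine Finset.sum_eq_zero fun i _ => ?_
        have h4 : π (b i) = 0 := congrFun hv i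
        rw [zsmul_eq_mul, map_mul, h4, mul_zero]
      exact one_ne_zero h3
    · funext j
      have h3 : π (z * b j) = 0 := by rw [map_mul, h0, zero_mul]
      rw [← b.sum_repr (z * b j), map_sum] at h3
      rw [Matrix.vecMul, dotProduct, Pi.zero_apply, ← h3]
      refine Finset.sum_congr rfl fun i _ => ?_
      rw [zsmul_eq_mul, map_mul, map_intCast, Matrix.map_apply, hMij, eq_intCast, mul_comm]
  have h3 : ((M.det : ℤ) : ZMod p) = 0 := by
    rw [← h2]
    exact (RingHom.map_det (Int.castRingHom (ZMod p)) M)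
  rw [ZMod.intCast_zmod_eq_zero_iff_dvd] at h3
  have h4 := Int.le_of_dvd (abs_pos.2 hN) ((dvd_abs _ _).2 h3)
  linarith

/-- The matrix of the bilinear form `(u, v) ↦` the coordinate of `u * v` at `i₀`. -/
noncomputable def gm (i₀ : Fin d) : Matrix (Fin d) (Fin d) ℤ := fun i j => b.repr (b i * b j) i₀

omit [IsDomain R] in
theorem gm_symm (i₀ : Fin d) : (gm b i₀).transpose = gm b i₀ := by
  ext i j
  unfold gm
  rw [Matrix.transpose_apply, mul_comm]

theorem gm_det_ne (i₀ : Fin d) : (gm b i₀).det ≠ 0 := by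
  classical
  intro hdet
  rw [← Matrix.exists_vecMul_eq_zero_iff] at hdet
  obtain ⟨v, hv, hv0⟩ := hdet
  set z : R := ∑ i, v i • b i with hz
  have hzr : ∀ i, b.repr z i = v i := by
    intro i
    rw [hz]
    exact congrFun (b.repr_sum_self v) i
  have hz0 : z ≠ 0 := by
    intro h
    apply hv
    funext i
    rw [← hzr i, h]
    simp
  have h1 : ∀ w : R, b.repr (z * w) i₀ = 0 := by
    intro w
    rw [repr_mul, Finset.sum_comm]
    refine Finset.sum_eq_zero fun j _ => ?_
    have h2 := congrFun hv0 j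
    rw [Matrix.vecMul, dotProduct, Pi.zero_apply] at h2
    have h3 : ∑ i, b.repr z i * b.repr w j * b.repr (b i * b j) i₀ =
        b.repr w j * ∑ i, v i * gm b i₀ i j := by
      rw [Finset.mul_sum]
      refine Finset.sum_congr rfl fun i _ => ?_
      rw [hzr]
      unfold gm
      ring
    rw [h3, h2, mul_zero]
  have hN : (Algebra.leftMulMatrix b z).det ≠ 0 := by
    rw [← Algebra.norm_eq_matrix_det b, Ne, Algebra.norm_eq_zero_iff_of_basis b]
    exact hz0
  -- `z * w = det • b i₀`
  set M := Algebra.leftMulMatrix b z with hM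
  set c : Fin d → ℤ := M.adjugate.mulVec (Pi.single i₀ 1) with hc
  set w : R := ∑ i, c i • b i with hw
  have hwr : ∀ i, b.repr w i = c i := by
    intro i
    rw [hw]
    exact congrFun (b.repr_sum_self c) i
  have h2 : M.mulVec (fun i => b.repr w i) = fun i => b.repr (z * w) i := by
    have := Algebra.leftMulMatrix_mulVec_repr b z w
    exact this
  have h3 : (fun i => b.repr w i) = c := funext hwr
  rw [h3, hc, Matrix.mulVec_mulVec, Matrix.mul_adjugate] at h2
  have h4 := congrFun h2 i₀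
  rw [h1 w, Matrix.smul_mulVec, Matrix.one_mulVec, Pi.smul_apply, Pi.single_eq_same,
    smul_eq_mul, mul_one] at h4
  exact hN h4

/-- The multiplier. -/
noncomputable def ph (i₀ : Fin d) (x : Fin d → ℤ) : R :=
  ∑ i, ((gm b i₀).adjugate.mulVec x) i • b i

omit [IsDomain R] in
theorem ph_pair (i₀ : Fin d) (x : Fin d → ℤ) (w : R) :
    b.repr (ph b i₀ x * w) i₀ = (gm b i₀).det * ∑ j, x j * b.repr w j := by
  classical
  have hr : ∀ i, b.repr (ph b i₀ x) i = ((gm b i₀).adjugate.mulVec x) i := by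
    intro i
    unfold ph
    exact congrFun (b.repr_sum_self ((gm b i₀).adjugate.mulVec x)) i
  rw [repr_mul, Finset.sum_comm, Finset.mul_sum]
  refine Finset.sum_congr rfl fun j _ => ?_
  have h1 : ∑ i, b.repr (ph b i₀ x) i * b.repr w j * b.repr (b i * b j) i₀ =
      b.repr w j * ∑ i, gm b i₀ j i * ((gm b i₀).adjugate.mulVec x) i := by
    rw [Finset.mul_sum]
    refine Finset.sum_congr rfl fun i _ => ?_
    rw [hr]
    unfold gm
    rw [mul_comm (b j) (b i)]
    ring
  have h2 : ∑ i, gm b i₀ j i * ((gm b i₀).adjugate.mulVec x) i = (gm b i₀).det * x j := by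
    have h3 : (gm b i₀).mulVec ((gm b i₀).adjugate.mulVec x) = (gm b i₀).det • x := by
      rw [Matrix.mulVec_mulVec, Matrix.mul_adjugate, Matrix.smul_mulVec, Matrix.one_mulVec]
    have h4 := congrFun h3 j
    rw [Matrix.mulVec, dotProduct, Pi.smul_apply, smul_eq_mul] at h4
    exact h4
  rw [h1, h2]
  ring

omit [IsDomain R] in
theorem ph_repr (i₀ : Fin d) (x : Fin d → ℤ) (i : Fin d) :
    b.repr (ph b i₀ x) i = ((gm b i₀).adjugate.mulVec x) i :=
  congrFun (b.repr_sum_self ((gm b i₀).adjugate.mulVec x)) i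

/-- The sum of the absolute values of the entries of the adjugate matrix. -/
noncomputable def sa (i₀ : Fin d) : ℤ := ∑ i, ∑ j, |(gm b i₀).adjugate i j|

omit [IsDomain R] in
theorem sa_nonneg (i₀ : Fin d) : 0 ≤ sa b i₀ :=
  Finset.sum_nonneg fun _ _ => Finset.sum_nonneg fun _ _ => abs_nonneg _

omit [IsDomain R] in
theorem ph_le (i₀ : Fin d) {x : Fin d → ℤ} {m : ℤ} (hx : ∀ i, |x i| ≤ m) (hm : 0 ≤ m)
    (i : Fin d) : |b.repr (ph b i₀ x) i| ≤ sa b i₀ * m := by
  rw [ph_repr, Matrix.mulVec, dotProduct]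
  refine (Finset.abs_sum_le_sum_abs _ _).trans ?_
  have h1 : ∑ j, |(gm b i₀).adjugate i j * x j| ≤ (∑ j, |(gm b i₀).adjugate i j|) * m := by
    rw [Finset.sum_mul]
    refine Finset.sum_le_sum fun j _ => ?_
    rw [abs_mul]
    exact mul_le_mul_of_nonneg_left (hx j) (abs_nonneg _)
  refine h1.trans (mul_le_mul_of_nonneg_right ?_ hm)
  exact Finset.single_le_sum (f := fun i => ∑ j, |(gm b i₀).adjugate i j|)
    (fun _ _ => Finset.sum_nonneg fun _ _ => abs_nonneg _) (Finset.mem_univ i)

include b in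
open scoped LinearAlgebra.Projectivization in
theorem ring_lower (hd : 0 < d) : ∃ C : ℕ, 0 < C ∧
    ∀ (p : ℕ) [Fact p.Prime] (_ : R →+* ZMod p) (m : ℕ), 1 ≤ m → C * m ^ (2 * d) < p →
      ∃ n : ℕ, m ^ (3 * d) ≤ C * m ^ 2 * n ∧
        2 ^ n ≤ iNum (ℙ (ZMod p) (Fin 3 → ZMod p)) (ℙ (ZMod p) (Fin 3 → ZMod p)) := by
  classical
  let i₀ : Fin d := ⟨0, hd⟩
  set D : ℤ := (gm b i₀).det with hD
  have hD0 : D ≠ 0 := gm_det_ne b i₀
  set CN : ℤ := (d.factorial : ℤ) * (sc b * (1 + sc b * sa b i₀)) ^ d with hCN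
  set CB : ℤ := 2 * (2 + |D| * d) + 1 with hCB
  have hsc := sc_nonneg b
  have hsa := sa_nonneg b i₀
  have hCN0 : 0 ≤ CN := by positivity
  have hCB0 : 0 ≤ CB := by positivity
  refine ⟨(CN + CB).toNat + 1, Nat.succ_pos _, ?_⟩
  intro p _ π m hm hp
  have hp' : (CN + CB + 1) * (m : ℤ) ^ (2 * d) < p := by
    have h1 : (((CN + CB).toNat + 1 : ℕ) : ℤ) = CN + CB + 1 := by
      push_cast
      rw [Int.toNat_of_nonneg (by positivity)]
    rw [← h1]
    exact_mod_cast hp
  let Z := (Fin d → Fin m) × (Fin d → Fin (m ^ 2))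
  let xc : Z → Fin d → ℤ := fun z i => ((z.1 i : ℕ) : ℤ)
  let yc : Z → Fin d → ℤ := fun z i => ((z.2 i : ℕ) : ℤ)
  let c : Z → ℤ := fun z => 2 * yc z i₀ - D * ∑ i, xc z i ^ 2
  set B : ℤ := (2 + |D| * d) * (m : ℤ) ^ 2 with hB
  have hx0 : ∀ z i, 0 ≤ xc z i := fun z i => Int.natCast_nonneg _
  have hx1 : ∀ z i, xc z i < m := fun z i => by
    have h1 := (z.1 i).2
    simp only [xc]
    exact_mod_cast h1
  have hy0 : ∀ z i, 0 ≤ yc z i := fun z i => Int.natCast_nonneg _
  have hy1 : ∀ z i, yc z i < (m : ℤ) ^ 2 := fun z i => by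
    have h1 := (z.2 i).2
    simp only [yc]
    exact_mod_cast h1
  have hm0 : (1 : ℤ) ≤ m := by exact_mod_cast hm
  have hcB : ∀ z, |c z| ≤ B := by
    intro z
    have h1 : |∑ i, xc z i ^ 2| ≤ d * (m : ℤ) ^ 2 := by
      rw [abs_of_nonneg (Finset.sum_nonneg fun i _ => sq_nonneg _)]
      have : ∀ i ∈ (univ : Finset (Fin d)), xc z i ^ 2 ≤ (m : ℤ) ^ 2 := by
        intro i _
        have h2 := hx0 z i
        have h3 := hx1 z i
        nlinarith
      have h4 := Finset.sum_le_card_nsmul _ _ _ this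
      rw [Finset.card_univ, Fintype.card_fin, nsmul_eq_mul] at h4
      exact h4
    have h5 : |2 * yc z i₀| ≤ 2 * (m : ℤ) ^ 2 := by
      rw [abs_of_nonneg (by have := hy0 z i₀; positivity)]
      have := hy1 z i₀
      linarith
    calc |c z| ≤ |2 * yc z i₀| + |D * ∑ i, xc z i ^ 2| := abs_sub _ _
      _ ≤ 2 * (m : ℤ) ^ 2 + |D| * (d * (m : ℤ) ^ 2) := by
          rw [abs_mul D]
          exact add_le_add h5 (mul_le_mul_of_nonneg_left h1 (abs_nonneg _))
      _ = B := by rw [hB]; ring
  have hB0 : 0 ≤ B := by positivity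
  obtain ⟨u, hu, hmax⟩ := Finset.exists_max_image (Finset.Icc (-B) B)
    (fun u => (univ.filter fun z : Z => c z = u).card) ⟨0, by simp [hB0]⟩
  have hcard : Fintype.card Z = m ^ (3 * d) := by
    simp only [Z, Fintype.card_prod, Fintype.card_fun, Fintype.card_fin]
    rw [← pow_mul, ← pow_add]
    congr 1
    ring
  set n := (univ.filter fun z : Z => c z = u).card with hn
  have hsum : m ^ (3 * d) ≤ (2 * B + 1).toNat * n := by
    rw [← hcard, ← Finset.card_univ,
      Finset.card_eq_sum_card_fiberwise (f := c) (t := Finset.Icc (-B) B)]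
    · refine (Finset.sum_le_card_nsmul _ _ n hmax).trans (le_of_eq ?_)
      rw [Int.card_Icc, smul_eq_mul]
      congr 2
      ring
    · intro z _
      rw [Finset.mem_coe, Finset.mem_Icc, ← abs_le]
      exact hcB z
  refine ⟨n, ?_, ?_⟩
  · refine hsum.trans (Nat.mul_le_mul_right n ?_)
    rw [Int.toNat_le]
    push_cast
    rw [Int.toNat_of_nonneg (by positivity)]
    have h1 : 1 ≤ (m : ℤ) ^ 2 := one_le_pow₀ hm0
    have h2 : 2 * B + 1 ≤ CB * (m : ℤ) ^ 2 := by
      rw [hB, hCB]
      nlinarith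
    refine h2.trans (mul_le_mul_of_nonneg_right ?_ (by positivity))
    linarith
  · have hcardΩ : Nat.card {z : Z // c z = u} = n := by
      rw [Nat.card_eq_fintype_card, Fintype.card_subtype]
    rw [← hcardΩ]
    let X : Z → R := fun z => ∑ i, xc z i • b i
    let Y : Z → R := fun z => ∑ i, yc z i • b i
    have hX : ∀ z i, b.repr (X z) i = xc z i := fun z i => congrFun (b.repr_sum_self (xc z)) i
    have hY : ∀ z i, b.repr (Y z) i = yc z i := fun z i => congrFun (b.repr_sum_self (yc z)) i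
    refine aff_lower (Ω := {z : Z // c z = u}) (fun z => π (X z.1)) (fun z => π (Y z.1))
      (fun z => π (ph b i₀ (xc z.1))) ?_
    rintro ⟨z, hz⟩ ⟨z', hz'⟩ h
    have h0 : π (Y z) - π (Y z') = π (ph b i₀ (xc z')) * (π (X z) - π (X z')) := h
    set w : R := Y z - Y z' - ph b i₀ (xc z') * (X z - X z') with hw
    have hπw : π w = 0 := by
      rw [hw, map_sub, map_sub, map_mul, map_sub, h0, sub_self]
    have hXX : ∀ l, b.repr (X z - X z') l = xc z l - xc z' l := by
      intro l
      rw [map_sub, Finsupp.sub_apply, hX, hX]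
    have hwl : ∀ l, |b.repr w l| ≤ (1 + sc b * sa b i₀) * (m : ℤ) ^ 2 := by
      intro l
      have h1 : b.repr w l = (yc z l - yc z' l) -
          b.repr (ph b i₀ (xc z') * (X z - X z')) l := by
        rw [hw, map_sub, Finsupp.sub_apply, map_sub, Finsupp.sub_apply, hY, hY]
      have h2 : |yc z l - yc z' l| ≤ (m : ℤ) ^ 2 := by
        rw [abs_le]
        have a1 := hy0 z l
        have a2 := hy0 z' l
        have a3 := hy1 z l
        have a4 := hy1 z' l
        constructor <;> linarith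
      have h3 : |b.repr (ph b i₀ (xc z') * (X z - X z')) l| ≤ sc b * ((sa b i₀ * m) * m) := by
        refine repr_mul_le b (ph_le b i₀ (fun i => ?_) (by positivity)) (fun i => ?_)
          (by positivity) l
        · rw [abs_of_nonneg (hx0 z' i)]
          exact (hx1 z' i).le
        · rw [hXX, abs_le]
          have a1 := hx0 z i
          have a2 := hx0 z' i
          have a3 := hx1 z i
          have a4 := hx1 z' i
          constructor <;> linarith
      rw [h1]
      calc |(yc z l - yc z' l) - b.repr (ph b i₀ (xc z') * (X z - X z')) l| ≤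
          |yc z l - yc z' l| + |b.repr (ph b i₀ (xc z') * (X z - X z')) l| := abs_sub _ _
        _ ≤ (m : ℤ) ^ 2 + sc b * ((sa b i₀ * m) * m) := add_le_add h2 h3
        _ = _ := by ring
    have hw0 : w = 0 := by
      refine eq_zero_of_small b π hwl (by positivity) ?_ hπw
      have h1 : (d.factorial : ℤ) * (sc b * ((1 + sc b * sa b i₀) * (m : ℤ) ^ 2)) ^ d =
          CN * (m : ℤ) ^ (2 * d) := by
        rw [hCN, pow_mul, ← mul_assoc (sc b), mul_pow (sc b * _)]
        ring
      rw [h1]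
      refine lt_of_le_of_lt (mul_le_mul_of_nonneg_right ?_ (by positivity)) hp'
      linarith
    have h1 : (yc z i₀ - yc z' i₀) = D * ∑ j, xc z' j * (xc z j - xc z' j) := by
      have h2 : b.repr w i₀ = 0 := by rw [hw0]; simp
      rw [hw, map_sub, Finsupp.sub_apply, map_sub, Finsupp.sub_apply, hY, hY, ph_pair] at h2
      simp only [hXX] at h2
      linarith
    have hcz : 2 * yc z i₀ - D * ∑ i, xc z i ^ 2 = 2 * yc z' i₀ - D * ∑ i, xc z' i ^ 2 :=
      hz.trans hz'.symm
    have h2 : D * ∑ i, (xc z i - xc z' i) ^ 2 = 0 := by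
      have h3 : ∑ i, (xc z i - xc z' i) ^ 2 = ∑ i, xc z i ^ 2 - ∑ i, xc z' i ^ 2 -
          2 * ∑ j, xc z' j * (xc z j - xc z' j) := by
        rw [Finset.mul_sum, ← Finset.sum_sub_distrib, ← Finset.sum_sub_distrib]
        refine Finset.sum_congr rfl fun i _ => ?_
        ring
      rw [h3]
      linear_combination hcz.symm + 2 * h1
    have h3 : ∑ i, (xc z i - xc z' i) ^ 2 = 0 := (mul_eq_zero.1 h2).resolve_left hD0
    have h4 : ∀ i, xc z i = xc z' i := by
      intro i
      have h5 := (Finset.sum_eq_zero_iff_of_nonneg fun i _ => sq_nonneg _).1 h3 i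
        (Finset.mem_univ i)
      have h6 := pow_eq_zero_iff (two_ne_zero) |>.1 h5
      linarith
    have h5 : Y z = Y z' := by
      have h6 : X z = X z' := by
        simp only [X, h4]
      rw [h6, sub_self, mul_zero, sub_zero] at hw
      rw [hw] at hw0
      exact sub_eq_zero.1 hw0
    have h6 : ∀ i, yc z i = yc z' i := by
      intro i
      rw [← hY, ← hY, h5]
    apply Subtype.ext
    change z = z'
    refine Prod.ext (funext fun i => Fin.ext ?_) (funext fun i => Fin.ext ?_)
    · have := h4 i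
      simp only [xc] at this
      exact_mod_cast this
    · have := h6 i
      simp only [yc] at this
      exact_mod_cast this

end ring

end Pool.Agent.Helper1.DS
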