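import Pool.Agent.Helper1.DS.Cont
import Pool.Agent.Helper1.DS.Defs

/-!
# The upper bound for the number of minimal dominating sets of a projective plane
-/

set_option autoImplicit false

namespace Pool.Agent.Helper1.DS

open Finset

/-- Every point of `T` is on a line which contains no other point of `T`. -/
def Tang {α β : Type*} (r : α → β → Prop) (T : Finset α) : Prop :=
  ∀ a ∈ T, ∃ b, r a b ∧ ∀ a' ∈ T, r a' b → a' = a

open scoped Classical in
theorem tang_card_le {α β : Type*} [Fintype α] [Fintype β] (r : α → β → Prop) :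
    (univ.filter fun T : Finset α => Tang r T).card ≤ (prs r univ univ).card := by
  have hch : ∀ T : Finset α, ∃ M : Finset β, Tang r T → IsMat r T M := by
    intro T
    by_cases hT : Tang r T
    · choose f hf using hT
      refine ⟨T.attach.image fun a => f a.1 a.2, fun _ => ⟨?_, ?_, ?_⟩⟩
      · rw [Finset.card_image_of_injective, Finset.card_attach]
        intro a a' h
        apply Subtype.ext
        have h' : f a.1 a.2 = f a'.1 a'.2 := h
        exact (hf a'.1 a'.2).2 a.1 a.2 (h' ▸ (hf a.1 a.2).1)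
      · intro b hb
        obtain ⟨a, -, rfl⟩ := Finset.mem_image.1 hb
        rw [Finset.card_le_one]
        intro x hx y hy
        rw [Finset.mem_filter] at hx hy
        rw [(hf a.1 a.2).2 x hx.1 hx.2, (hf a.1 a.2).2 y hy.1 hy.2]
      · intro a ha
        rw [Finset.card_le_one]
        intro x hx y hy
        rw [Finset.mem_filter, Finset.mem_image] at hx hy
        obtain ⟨⟨x', -, rfl⟩, hx2⟩ := hx
        obtain ⟨⟨y', -, rfl⟩, hy2⟩ := hy
        have e1 : x' = y' := Subtype.ext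
          (((hf x'.1 x'.2).2 a ha hx2).symm.trans ((hf y'.1 y'.2).2 a ha hy2))
        rw [e1]
    · exact ⟨∅, fun h => absurd h hT⟩
  choose F hF using hch
  refine Finset.card_le_card_of_injOn (fun T => (T, F T)) ?_ ?_
  · intro T hT
    have hT' : Tang r T := (Finset.mem_filter.1 (Finset.mem_coe.1 hT)).2
    rw [Finset.mem_coe]
    unfold prs
    rw [Finset.mem_filter, Finset.mem_product, Finset.mem_powerset, Finset.mem_powerset]
    exact ⟨⟨Finset.subset_univ _, Finset.subset_univ _⟩, hF T hT'⟩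
  · intro T _ T' _ h
    exact congrArg Prod.fst h

theorem exists_core {α β : Type*} [Fintype α] (r : α → β → Prop) (S : Set α) :
    ∃ A : Finset α, Tang r A ∧ ∀ b, (∃ a ∈ A, r a b) ↔ ∃ a ∈ S, r a b := by
  classical
  let X : Finset (Finset α) := univ.filter fun A => ∀ b, (∃ a ∈ A, r a b) ↔ ∃ a ∈ S, r a b
  have hX : X.Nonempty := by
    refine ⟨S.toFinset, ?_⟩
    simp only [X, Finset.mem_filter, Finset.mem_univ, true_and, Set.mem_toFinset]
    exact fun _ => trivial
  obtain ⟨A, hA, hmin⟩ := Finset.exists_min_image X Finset.card hX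
  have hA' : ∀ b, (∃ a ∈ A, r a b) ↔ ∃ a ∈ S, r a b := (Finset.mem_filter.1 hA).2
  refine ⟨A, ?_, hA'⟩
  intro a ha
  by_contra hcon
  push Not at hcon
  have h1 : A.erase a ∈ X := by
    simp only [X, Finset.mem_filter, Finset.mem_univ, true_and]
    intro b
    rw [← hA' b]
    constructor
    · rintro ⟨c, hc, hcb⟩
      exact ⟨c, Finset.mem_of_mem_erase hc, hcb⟩
    · rintro ⟨c, hc, hcb⟩
      by_cases hca : c = a
      · subst hca
        obtain ⟨d, hd, hdb, hne⟩ := hcon b hcb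
        exact ⟨d, Finset.mem_erase.2 ⟨hne, hd⟩, hdb⟩
      · exact ⟨c, Finset.mem_erase.2 ⟨hca, hc⟩, hcb⟩
  have h2 := hmin _ h1
  have h3 := Finset.card_erase_lt_of_mem ha
  omega

section

variable {P L : Type*} [Membership P L]

theorem IsInd.minimal {D : Set P × Set L} (hd : IsDom D) (hi : IsInd D) : Minimal IsDom D := by
  refine ⟨hd, ?_⟩
  intro D' hD' hle
  refine ⟨?_, ?_⟩
  · intro p hp
    by_contra hp'
    obtain ⟨l, hl, hpl⟩ := hD'.1 p hp'
    exact hi p hp l (hle.2 hl) hpl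
  · intro l hl
    by_contra hl'
    obtain ⟨p, hp, hpl⟩ := hD'.2 l hl'
    exact hi p (hle.1 hp) l hl hpl

theorem iNum_le_mNum (P L : Type*) [Membership P L] [Finite P] [Finite L] :
    iNum P L ≤ mNum P L := by
  unfold iNum mNum
  refine Nat.card_le_card_of_injective
    (fun D => ⟨D.1, IsInd.minimal D.2.1 D.2.2⟩ : {D : Set P × Set L // IsDom D ∧ IsInd D} →
      {D : Set P × Set L // Minimal IsDom D}) ?_
  intro D D' h
  apply Subtype.ext
  have h' := congrArg (fun E : {D : Set P × Set L // Minimal IsDom D} => E.1) h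
  exact h'

/-- The points of a dominating set which are on a line of it. -/
noncomputable def pt1 [Fintype P] (D : Set P × Set L) : Finset P := by
  classical
  exact univ.filter fun p => p ∈ D.1 ∧ ∃ l ∈ D.2, p ∈ l

/-- The lines of a dominating set which contain a point of it. -/
noncomputable def ln1 [Fintype L] (D : Set P × Set L) : Finset L := by
  classical
  exact univ.filter fun l => l ∈ D.2 ∧ ∃ p ∈ D.1, p ∈ l

theorem mem_pt1 [Fintype P] {D : Set P × Set L} {p : P} :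
    p ∈ pt1 D ↔ p ∈ D.1 ∧ ∃ l ∈ D.2, p ∈ l := by
  classical
  unfold pt1
  simp

theorem mem_ln1 [Fintype L] {D : Set P × Set L} {l : L} :
    l ∈ ln1 D ↔ l ∈ D.2 ∧ ∃ p ∈ D.1, p ∈ l := by
  classical
  unfold ln1
  simp

theorem tang_pt1 [Fintype P] {D : Set P × Set L} (h : Minimal IsDom D) :
    Tang (fun (p : P) (l : L) => p ∈ l) (pt1 D) := by
  intro p hp
  obtain ⟨hp1, l₀, hl₀, hpl₀⟩ := mem_pt1.1 hp
  have hnot : ¬ IsDom (D.1 \ {p}, D.2) := by
    intro hd
    have := (h.2 hd ⟨Set.sdiff_subset, le_rfl⟩).1 hp1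
    exact this.2 rfl
  have h1 : ∀ p', p' ∉ D.1 \ {p} → ∃ l ∈ D.2, p' ∈ l := by
    intro p' hp'
    by_cases hpp : p' = p
    · subst hpp
      exact ⟨l₀, hl₀, hpl₀⟩
    · exact h.1.1 p' fun hc => hp' ⟨hc, hpp⟩
  have h2 : ¬ ∀ l, l ∉ D.2 → ∃ p' ∈ D.1 \ {p}, p' ∈ l := fun h2 => hnot ⟨h1, h2⟩
  push Not at h2
  obtain ⟨l, hl, hl2⟩ := h2
  obtain ⟨p'', hp'', hpl⟩ := h.1.2 l hl
  have hp3 : p'' = p := by
    by_contra hne
    exact hl2 p'' ⟨hp'', hne⟩ hpl
  subst hp3
  refine ⟨l, hpl, ?_⟩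
  intro a' ha' ha'l
  by_contra hne
  exact hl2 a' ⟨(mem_pt1.1 ha').1, hne⟩ ha'l

theorem tang_ln1 [Fintype L] {D : Set P × Set L} (h : Minimal IsDom D) :
    Tang (fun (l : L) (p : P) => p ∈ l) (ln1 D) := by
  intro l hl
  obtain ⟨hl1, p₀, hp₀, hlp₀⟩ := mem_ln1.1 hl
  have hnot : ¬ IsDom (D.1, D.2 \ {l}) := by
    intro hd
    have := (h.2 hd ⟨le_rfl, Set.sdiff_subset⟩).2 hl1
    exact this.2 rfl
  have h1 : ∀ l', l' ∉ D.2 \ {l} → ∃ p ∈ D.1, p ∈ l' := by
    intro l' hl'
    by_cases hll : l' = l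
    · subst hll
      exact ⟨p₀, hp₀, hlp₀⟩
    · exact h.1.2 l' fun hc => hl' ⟨hc, hll⟩
  have h2 : ¬ ∀ p, p ∉ D.1 → ∃ l' ∈ D.2 \ {l}, p ∈ l' := fun h2 => hnot ⟨h2, h1⟩
  push Not at h2
  obtain ⟨p, hp, hp2⟩ := h2
  obtain ⟨l'', hl'', hlp⟩ := h.1.1 p hp
  have hl3 : l'' = l := by
    by_contra hne
    exact hp2 l'' ⟨hl'', hne⟩ hlp
  subst hl3
  refine ⟨p, hlp, ?_⟩
  intro a' ha' ha'l
  by_contra hne
  exact hp2 a' ⟨(mem_ln1.1 ha').1, hne⟩ ha'l

open scoped Classical in
theorem mNum_le (P L : Type*) [Membership P L] [Fintype P] [Fintype L] :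
    mNum P L ≤ (univ.filter fun T : Finset P => Tang (fun (p : P) (l : L) => p ∈ l) T).card *
      ((univ.filter fun T : Finset P => Tang (fun (p : P) (l : L) => p ∈ l) T).card *
      (univ.filter fun T : Finset L => Tang (fun (l : L) (p : P) => p ∈ l) T).card) := by
  choose core hc1 hc2 using exists_core (fun (p : P) (l : L) => p ∈ l)
  rw [← Finset.card_product, ← Finset.card_product]
  unfold mNum
  let X : Finset (Finset P × Finset P × Finset L) :=
    (univ.filter fun T : Finset P => Tang (fun (p : P) (l : L) => p ∈ l) T) ×ˢ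
      ((univ.filter fun T : Finset P => Tang (fun (p : P) (l : L) => p ∈ l) T) ×ˢ
      (univ.filter fun T : Finset L => Tang (fun (l : L) (p : P) => p ∈ l) T))
  have hmem : ∀ D : Set P × Set L, Minimal IsDom D → (core D.1, pt1 D, ln1 D) ∈ X := by
    intro D hD
    simp only [X, Finset.mem_product, Finset.mem_filter, Finset.mem_univ, true_and]
    exact ⟨hc1 _, tang_pt1 hD, tang_ln1 hD⟩
  have hinj : ∀ D D' : Set P × Set L, Minimal IsDom D → Minimal IsDom D' →
      core D.1 = core D'.1 → pt1 D = pt1 D' → ln1 D = ln1 D' → D = D' := by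
    intro D D' hD hD' h1 h2 h3
    have hhit : ∀ l : L, (∃ p ∈ D.1, p ∈ l) ↔ ∃ p ∈ D'.1, p ∈ l := by
      intro l
      rw [← hc2, ← hc2, h1]
    have e2 : ∀ D : Set P × Set L, IsDom D → ∀ l : L, l ∈ D.2 ↔ (¬ ∃ p ∈ D.1, p ∈ l) ∨ l ∈ ln1 D := by
      intro D hD l
      constructor
      · intro hl
        by_cases h : ∃ p ∈ D.1, p ∈ l
        · exact Or.inr (mem_ln1.2 ⟨hl, h⟩)
        · exact Or.inl h
      · rintro (h | h)
        · by_contra hl
          exact h (hD.2 l hl)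
        · exact (mem_ln1.1 h).1
    have e1 : ∀ D : Set P × Set L, IsDom D → ∀ p : P, p ∈ D.1 ↔ (¬ ∃ l ∈ D.2, p ∈ l) ∨ p ∈ pt1 D := by
      intro D hD p
      constructor
      · intro hp
        by_cases h : ∃ l ∈ D.2, p ∈ l
        · exact Or.inr (mem_pt1.2 ⟨hp, h⟩)
        · exact Or.inl h
      · rintro (h | h)
        · by_contra hp
          exact h (hD.1 p hp)
        · exact (mem_pt1.1 h).1
    have hL : D.2 = D'.2 := by
      ext l
      rw [e2 D hD.1 l, e2 D' hD'.1 l, hhit l, h3]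
    have hP : D.1 = D'.1 := by
      ext p
      rw [e1 D hD.1 p, e1 D' hD'.1 p, hL, h2]
    exact Prod.ext hP hL
  have hcard : X.card = Nat.card X := by
    rw [Nat.card_eq_fintype_card, Fintype.card_coe]
  change _ ≤ X.card
  rw [hcard]
  refine Nat.card_le_card_of_injective
    (fun D => ⟨(core D.1.1, pt1 D.1, ln1 D.1), hmem D.1 D.2⟩ :
      {D : Set P × Set L // Minimal IsDom D} → X) ?_
  intro D D' h
  have h' : (core D.1.1, pt1 D.1, ln1 D.1) = (core D'.1.1, pt1 D'.1, ln1 D'.1) :=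
    congrArg Subtype.val h
  apply Subtype.ext
  exact hinj D.1 D'.1 D.2 D'.2 (congrArg Prod.fst h') (congrArg (fun x => x.2.1) h')
    (congrArg (fun x => x.2.2) h')

end

/-! ### Projective planes -/

section

open Configuration

variable (P L : Type*) [Membership P L] [ProjectivePlane P L] [Fintype P] [Fintype L]

theorem isPl : IsPl (fun (p : P) (l : L) => p ∈ l) (ProjectivePlane.order P L) := by
  classical
  refine ⟨ProjectivePlane.card_lines P L, ?_, ?_⟩
  · intro p
    rw [← ProjectivePlane.lineCount_eq L p]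
    unfold lineCount
    rw [Nat.card_eq_fintype_card, Fintype.card_subtype]
  · intro p p' hpp
    rw [Finset.card_eq_one]
    refine ⟨HasLines.mkLine hpp, ?_⟩
    ext l
    rw [Finset.mem_filter, Finset.mem_singleton]
    have hax := HasLines.mkLine_ax (L := L) hpp
    constructor
    · rintro ⟨-, h1, h2⟩
      exact (Nondegenerate.eq_or_eq h1 h2 hax.1 hax.2).resolve_left hpp
    · rintro rfl
      exact ⟨Finset.mem_univ _, hax⟩

theorem isPl' : IsPl (fun (l : L) (p : P) => p ∈ l) (ProjectivePlane.order P L) := by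
  classical
  refine ⟨ProjectivePlane.card_points P L, ?_, ?_⟩
  · intro l
    rw [← ProjectivePlane.pointCount_eq P l]
    unfold pointCount
    rw [Nat.card_eq_fintype_card, Fintype.card_subtype]
  · intro l l' hll
    rw [Finset.card_eq_one]
    refine ⟨HasPoints.mkPoint hll, ?_⟩
    ext p
    rw [Finset.mem_filter, Finset.mem_singleton]
    have hax := HasPoints.mkPoint_ax (P := P) hll
    constructor
    · rintro ⟨-, h1, h2⟩
      exact (Nondegenerate.eq_or_eq h1 hax.1 h2 hax.2).resolve_right hll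
    · rintro rfl
      exact ⟨Finset.mem_univ _, hax⟩

theorem mNum_upper :
    Real.logb 2 (mNum P L) ≤ 666 * (ProjectivePlane.order P L : ℝ) ^ (3 / 2 : ℝ) := by
  classical
  set q := ProjectivePlane.order P L with hq
  have hq1 : 1 < q := ProjectivePlane.one_lt_order P L
  set R : ℕ := Nat.sqrt (q * (q + 1) ^ 2) + 1 with hR
  have hR1 : q * (q + 1) ^ 2 ≤ R ^ 2 := by
    rw [sq R]
    exact (Nat.lt_succ_sqrt _).le
  have hR2 : (R : ℝ) ≤ 3 * (q : ℝ) ^ (3 / 2 : ℝ) := by
    have hq0 : (1 : ℝ) ≤ q := by exact_mod_cast hq1.le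
    have hs : ((Nat.sqrt (q * (q + 1) ^ 2) : ℕ) : ℝ) ≤ 2 * (q : ℝ) ^ (3 / 2 : ℝ) := by
      have h1 : (Nat.sqrt (q * (q + 1) ^ 2)) ^ 2 ≤ q * (q + 1) ^ 2 := Nat.sqrt_le' _
      have h2 : ((Nat.sqrt (q * (q + 1) ^ 2) : ℕ) : ℝ) ^ 2 ≤ (q : ℝ) * (q + 1) ^ 2 := by
        exact_mod_cast h1
      have h3 : (2 * (q : ℝ) ^ (3 / 2 : ℝ)) ^ 2 = 4 * (q : ℝ) ^ 3 := by
        rw [mul_pow, ← Real.rpow_natCast ((q : ℝ) ^ (3 / 2 : ℝ)), ← Real.rpow_mul (by positivity)]
        norm_num
      have h4 : ((Nat.sqrt (q * (q + 1) ^ 2) : ℕ) : ℝ) ^ 2 ≤ (2 * (q : ℝ) ^ (3 / 2 : ℝ)) ^ 2 := by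
        rw [h3]
        refine h2.trans ?_
        have h5 : ((q : ℝ) + 1) ^ 2 ≤ 4 * (q : ℝ) ^ 2 := by nlinarith
        nlinarith
      exact le_of_sq_le_sq h4 (by positivity)
    have hone : 1 ≤ (q : ℝ) ^ (3 / 2 : ℝ) := Real.one_le_rpow hq0 (by norm_num)
    rw [hR]
    push_cast
    linarith
  have hX : (((univ.filter fun T : Finset P => Tang (fun (p : P) (l : L) => p ∈ l) T).card : ℕ) :
      ℝ) ≤ (2 : ℝ) ^ (74 * R : ℝ) := by
    refine le_trans ?_ (prs_card_le (isPl P L) (isPl' P L) hq1.le hR1)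
    have h0 := tang_card_le (fun (p : P) (l : L) => p ∈ l)
    exact_mod_cast h0
  have hY : (((univ.filter fun T : Finset L => Tang (fun (l : L) (p : P) => p ∈ l) T).card : ℕ) :
      ℝ) ≤ (2 : ℝ) ^ (74 * R : ℝ) := by
    refine le_trans ?_ (prs_card_le (isPl' P L) (isPl P L) hq1.le hR1)
    have h0 := tang_card_le (fun (l : L) (p : P) => p ∈ l)
    exact_mod_cast h0
  have hm : ((mNum P L : ℕ) : ℝ) ≤ (2 : ℝ) ^ (222 * R : ℝ) := by
    have h1 := mNum_le P L
    have h2 : ((mNum P L : ℕ) : ℝ) ≤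
        ((univ.filter fun T : Finset P => Tang (fun (p : P) (l : L) => p ∈ l) T).card : ℝ) *
        (((univ.filter fun T : Finset P => Tang (fun (p : P) (l : L) => p ∈ l) T).card : ℝ) *
        ((univ.filter fun T : Finset L => Tang (fun (l : L) (p : P) => p ∈ l) T).card : ℝ)) := by
      exact_mod_cast h1
    refine h2.trans ?_
    calc _ ≤ (2 : ℝ) ^ (74 * R : ℝ) * ((2 : ℝ) ^ (74 * R : ℝ) * (2 : ℝ) ^ (74 * R : ℝ)) := by
          gcongr
      _ = (2 : ℝ) ^ (222 * R : ℝ) := by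
          rw [← Real.rpow_add (by norm_num), ← Real.rpow_add (by norm_num)]
          congr 1
          ring
  have hlog : Real.logb 2 (mNum P L) ≤ 222 * R := by
    rcases Nat.eq_zero_or_pos (mNum P L) with h0 | h0
    · rw [h0]
      simp
    · rw [Real.logb_le_iff_le_rpow (by norm_num) (by exact_mod_cast h0)]
      exact hm
  linarith

end

end Pool.Agent.Helper1.DS
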