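import Mathlib

/-!
# Points and lines of a projective plane: few lines meet a large point set in at most one point
-/

set_option autoImplicit false

namespace Pool.Agent.Helper1.DS

open Finset

open scoped Classical in
/-- One half of the counting properties of a projective plane of order `q`. -/
structure IsPl {α β : Type*} [Fintype β] (r : α → β → Prop) (q : ℕ) : Prop where
  card : Fintype.card β = q ^ 2 + q + 1
  deg : ∀ a, (univ.filter fun b => r a b).card = q + 1
  pair : ∀ a a', a ≠ a' → (univ.filter fun b => r a b ∧ r a' b).card = 1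

open scoped Classical in
theorem IsPl.var {α β : Type*} [Fintype β] {r : α → β → Prop} {q : ℕ}
    (h : IsPl r q) (T : Finset α) (hT : 2 * (q + 1) ≤ T.card) :
    (univ.filter fun b => (T.filter fun a => r a b).card ≤ 1).card * T.card ≤
      4 * (q * (q + 1) ^ 2) := by
  set t : ℝ := (T.card : ℝ) with ht
  have htpos : 0 < t := by
    have : 0 < T.card := by omega
    rw [ht]
    exact_mod_cast this
  have hcard : ((Fintype.card β : ℕ) : ℝ) = (q : ℝ) ^ 2 + q + 1 := by
    rw [h.card]; push_cast; ring
  -- indicator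
  let i : α → β → ℝ := fun a b => if r a b then 1 else 0
  have hx : ∀ b, ((T.filter fun a => r a b).card : ℝ) = ∑ a ∈ T, i a b := by
    intro b
    simp only [i]
    rw [Finset.sum_ite, Finset.sum_const, Finset.sum_const_zero, add_zero, nsmul_eq_mul, mul_one]
  have hdeg : ∀ a, ∑ b, i a b = (q : ℝ) + 1 := by
    intro a
    simp only [i]
    rw [Finset.sum_ite, Finset.sum_const, Finset.sum_const_zero, add_zero, nsmul_eq_mul, mul_one,
      h.deg a]
    push_cast
    ring
  have hpair : ∀ a a', ∑ b, i a b * i a' b = if a = a' then (q : ℝ) + 1 else 1 := by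
    intro a a'
    split_ifs with haa
    · subst haa
      rw [← hdeg a]
      refine Finset.sum_congr rfl fun b _ => ?_
      simp only [i]
      split_ifs <;> simp
    · have : ∀ b, i a b * i a' b = if r a b ∧ r a' b then 1 else 0 := by
        intro b
        simp only [i]
        by_cases h1 : r a b <;> by_cases h2 : r a' b <;> simp [h1, h2]
      rw [Finset.sum_congr rfl fun b _ => this b, Finset.sum_ite, Finset.sum_const,
        Finset.sum_const_zero, add_zero, nsmul_eq_mul, mul_one, h.pair a a' haa]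
      norm_num
  have hS1 : ∑ b, ∑ a ∈ T, i a b = t * (q + 1) := by
    rw [Finset.sum_comm, Finset.sum_congr rfl fun a _ => hdeg a, Finset.sum_const, nsmul_eq_mul]
  have hS2 : ∑ b, (∑ a ∈ T, i a b) ^ 2 = t * (t + q) := by
    have e1 : ∀ b, (∑ a ∈ T, i a b) ^ 2 = ∑ a ∈ T, ∑ a' ∈ T, i a b * i a' b := by
      intro b
      rw [sq, Finset.sum_mul_sum]
    rw [Finset.sum_congr rfl fun b _ => e1 b, Finset.sum_comm]
    have e2 : ∀ a ∈ T, ∑ b, ∑ a' ∈ T, i a b * i a' b = t + q := by
      intro a ha
      rw [Finset.sum_comm, Finset.sum_congr rfl fun a' _ => hpair a a']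
      have : ∀ a', (if a = a' then (q : ℝ) + 1 else 1) = 1 + if a = a' then (q : ℝ) else 0 := by
        intro a'
        split_ifs <;> ring
      rw [Finset.sum_congr rfl fun a' _ => this a', Finset.sum_add_distrib, Finset.sum_const,
        nsmul_eq_mul, mul_one, Finset.sum_ite_eq, if_pos ha]
    rw [Finset.sum_congr rfl e2, Finset.sum_const, nsmul_eq_mul]
  set c : ℝ := t / (q + 1) with hc
  have hq1 : (0 : ℝ) < (q : ℝ) + 1 := by positivity
  have hc2 : 2 ≤ c := by
    rw [hc, le_div_iff₀ hq1, ht]
    exact_mod_cast hT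
  have hct : c * (q + 1) = t := by
    rw [hc]
    field_simp
  have hvar : ∑ b, ((∑ a ∈ T, i a b) - c) ^ 2 ≤ t * q := by
    have e : ∀ b, ((∑ a ∈ T, i a b) - c) ^ 2 =
        (∑ a ∈ T, i a b) ^ 2 - 2 * c * (∑ a ∈ T, i a b) + c ^ 2 := by
      intro b; ring
    rw [Finset.sum_congr rfl fun b _ => e b, Finset.sum_add_distrib, Finset.sum_sub_distrib,
      ← Finset.mul_sum, hS1, hS2, Finset.sum_const, Finset.card_univ, nsmul_eq_mul, hcard]
    have hqc : 0 ≤ (q : ℝ) * c ^ 2 := by positivity
    nlinarith [hqc, hct]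
  have hlow : ((univ.filter fun b => (T.filter fun a => r a b).card ≤ 1).card : ℝ) * (c ^ 2 / 4) ≤
      ∑ b, ((∑ a ∈ T, i a b) - c) ^ 2 := by
    rw [← nsmul_eq_mul, ← Finset.sum_const]
    refine le_trans (Finset.sum_le_sum fun b hb => ?_)
      (Finset.sum_le_sum_of_subset_of_nonneg (Finset.subset_univ _) fun b _ _ => sq_nonneg _)
    have hb1 : ((T.filter fun a => r a b).card : ℝ) ≤ 1 := by
      exact_mod_cast (Finset.mem_filter.1 hb).2
    rw [hx b] at hb1
    have hb0 : 0 ≤ ∑ a ∈ T, i a b := Finset.sum_nonneg fun a _ => by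
      simp only [i]; split_ifs <;> norm_num
    nlinarith
  have hfin : ((univ.filter fun b => (T.filter fun a => r a b).card ≤ 1).card : ℝ) * t ≤
      4 * (q * (q + 1) ^ 2) := by
    set z : ℝ := ((univ.filter fun b => (T.filter fun a => r a b).card ≤ 1).card : ℝ) with hz
    have h1 : z * (c ^ 2 / 4) ≤ t * q := hlow.trans hvar
    have h2 : z * t * t ≤ 4 * (q * (q + 1) ^ 2) * t := by
      have : t * t = c ^ 2 * (q + 1) ^ 2 := by
        rw [← hct]; ring
      have h3 : z * c ^ 2 * (q + 1) ^ 2 ≤ 4 * (t * q) * (q + 1) ^ 2 := by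
        have : z * c ^ 2 ≤ 4 * (t * q) := by linarith
        exact mul_le_mul_of_nonneg_right this (by positivity)
      calc z * t * t = z * (t * t) := by ring
        _ = z * c ^ 2 * (q + 1) ^ 2 := by rw [this]; ring
        _ ≤ _ := h3
        _ = _ := by ring
    exact le_of_mul_le_mul_right h2 htpos
  rw [ht] at hfin
  exact_mod_cast hfin

end Pool.Agent.Helper1.DS
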